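import Mathlib

/-!
The facts behind the theorem on the average range of 1-Lipschitz mappings (copied from the proof of
the frozen statement, by helper42), with the inequality behind `detach` stated on its own.
-/

set_option autoImplicit false

namespace Pool.Agent.H74.LNR


open Finset
open scoped FinsetFamily

/-- survival probability of the lazy walk: `p a y` = probability that a walk of `a` uniform
`{-1,0,1}` steps started at `y` stays `≥ 1`. -/
noncomputable def p : ℕ → ℤ → ℝ
  | 0, y => if 1 ≤ y then 1 else 0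
  | (a+1), y => if 1 ≤ y then (p a (y-1) + p a y + p a (y+1)) / 3 else 0

lemma p_nonpos (a : ℕ) (y : ℤ) (hy : y ≤ 0) : p a y = 0 := by
  cases a <;> simp [p, not_le.mpr (show y < 1 by omega)]

lemma p_succ (a : ℕ) (y : ℤ) (hy : 1 ≤ y) :
    p (a+1) y = (p a (y-1) + p a y + p a (y+1)) / 3 := by
  simp [p, hy]

lemma p_nonneg (a : ℕ) : ∀ y : ℤ, 0 ≤ p a y := by
  induction a with
  | zero => intro y; simp only [p]; split_ifs <;> norm_num
  | succ a ih =>
    intro y
    simp only [p]
    split_ifs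
    · have := ih (y-1); have := ih y; have := ih (y+1); positivity
    · exact le_rfl

lemma p_eq_one (a : ℕ) : ∀ y : ℤ, (a : ℤ) + 1 ≤ y → p a y = 1 := by
  induction a with
  | zero => intro y hy; simp only [p]; rw [if_pos (by simpa using hy)]
  | succ a ih =>
    intro y hy
    push_cast at hy
    rw [p_succ a y (by omega), ih (y-1) (by omega), ih y (by omega), ih (y+1) (by omega)]
    norm_num

lemma p_mono (a : ℕ) : Monotone (p a) := by
  apply monotone_int_of_le_succ
  induction a with
  | zero =>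
    intro y
    simp only [p]
    split_ifs with h1 h2
    · exact le_rfl
    · omega
    · norm_num
    · exact le_rfl
  | succ a ih =>
    intro y
    by_cases hy : 1 ≤ y
    · rw [p_succ a y hy, p_succ a (y+1) (by omega)]
      have h1 := ih (y-1)
      have h2 := ih y
      have h3 := ih (y+1)
      rw [show y - 1 + 1 = y by ring] at h1
      rw [show y + 1 - 1 = y by ring]
      linarith
    · rw [p_nonpos (a+1) y (by omega)]
      exact p_nonneg _ _

/-- transition kernel of the walk killed at `0`. -/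
noncomputable def k : ℕ → ℤ → ℤ → ℝ
  | 0, y, z => if 1 ≤ y ∧ y = z then 1 else 0
  | (a+1), y, z => if 1 ≤ y then (k a (y-1) z + k a y z + k a (y+1) z) / 3 else 0

lemma k_succ (a : ℕ) (y z : ℤ) :
    k (a+1) y z = if 1 ≤ y then (k a (y-1) z + k a y z + k a (y+1) z) / 3 else 0 := by
  simp only [k]

lemma k_nonneg (a : ℕ) : ∀ y z : ℤ, 0 ≤ k a y z := by
  induction a with
  | zero => intro y z; simp only [k]; split_ifs <;> norm_num
  | succ a ih =>
    intro y z
    simp only [k]
    split_ifs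
    · have := ih (y-1) z; have := ih y z; have := ih (y+1) z; positivity
    · exact le_rfl

lemma k_far (a : ℕ) : ∀ y z : ℤ, (a : ℤ) < |y - z| → k a y z = 0 := by
  induction a with
  | zero =>
    intro y z h
    simp only [k]
    rw [if_neg]
    rintro ⟨_, rfl⟩
    simp at h
  | succ a ih =>
    intro y z h
    push_cast at h
    simp only [k]
    split_ifs
    · rw [ih (y-1) z, ih y z, ih (y+1) z]
      · norm_num
      · rw [lt_abs] at h ⊢; omega
      · rw [lt_abs] at h ⊢; omega
      · rw [lt_abs] at h ⊢; omega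
    · rfl

lemma k_succ' (a : ℕ) : ∀ y z : ℤ,
    k (a+1) y z = if 1 ≤ z then (k a y (z-1) + k a y z + k a y (z+1)) / 3 else 0 := by
  induction a with
  | zero =>
    intro y z
    simp only [k]
    by_cases hy : 1 ≤ y
    · by_cases hz : 1 ≤ z
      · rw [if_pos hy, if_pos hz]
        congr 1
        have e1 : (1 ≤ y - 1 ∧ y - 1 = z) ↔ (1 ≤ y ∧ y = z + 1) := by omega
        have e2 : (1 ≤ y + 1 ∧ y + 1 = z) ↔ (1 ≤ y ∧ y = z - 1) := by omega
        simp only [e1, e2]
        ring
      · rw [if_pos hy, if_neg hz, if_neg (by omega), if_neg (by omega), if_neg (by omega)]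
        norm_num
    · rw [if_neg hy]
      split_ifs <;> first | omega | norm_num
  | succ a ih =>
    intro y z
    have L : k (a+1+1) y z = if 1 ≤ y then
        ((if 1 ≤ z then (k a (y-1) (z-1) + k a (y-1) z + k a (y-1) (z+1)) / 3 else 0) +
        (if 1 ≤ z then (k a y (z-1) + k a y z + k a y (z+1)) / 3 else 0) +
        (if 1 ≤ z then (k a (y+1) (z-1) + k a (y+1) z + k a (y+1) (z+1)) / 3 else 0)) / 3
        else 0 := by
      rw [k_succ (a+1) y z, ih (y-1) z, ih y z, ih (y+1) z]
    rw [L, k_succ a y (z-1), k_succ a y z, k_succ a y (z+1)]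
    by_cases hy : 1 ≤ y
    · by_cases hz : 1 ≤ z
      · simp only [hy, hz, if_true]; ring
      · simp only [hy, hz, if_true, if_false]; ring
    · by_cases hz : 1 ≤ z
      · simp only [hy, hz, if_true, if_false]; ring
      · simp only [hy, hz, if_false]

lemma k_symm (a : ℕ) : ∀ y z : ℤ, k a y z = k a z y := by
  induction a with
  | zero =>
    intro y z
    simp only [k]
    have : (1 ≤ y ∧ y = z) ↔ (1 ≤ z ∧ z = y) := by omega
    simp only [this]
  | succ a ih =>
    intro y z
    rw [k_succ' a z y, k]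
    rw [ih (y-1) z, ih y z, ih (y+1) z]

/-- sum of the kernel against a survival function. -/
lemma sum_k (b : ℕ) (N : ℕ) (a : ℕ) : ∀ y : ℤ, y + a ≤ N →
    ∑ i ∈ range N, k a y ((i:ℤ)+1) * p b ((i:ℤ)+1) = p (a+b) y := by
  induction a with
  | zero =>
    intro y hy
    simp only [k, Nat.cast_zero, add_zero, zero_add] at *
    by_cases h1 : 1 ≤ y
    · obtain ⟨m, hm⟩ : ∃ m : ℕ, y = (m:ℤ) + 1 := ⟨(y-1).toNat, by omega⟩
      rw [Finset.sum_eq_single m]
      · rw [if_pos ⟨h1, hm⟩, one_mul, hm]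
      · intro i _ hi
        rw [if_neg, zero_mul]
        rintro ⟨_, h⟩
        apply hi
        omega
      · intro hmem
        exfalso
        apply hmem
        rw [mem_range]
        omega
    · rw [p_nonpos b y (by omega)]
      apply Finset.sum_eq_zero
      intro i _
      rw [if_neg (by omega), zero_mul]
  | succ a ih =>
    intro y hy
    push_cast at hy
    by_cases h1 : 1 ≤ y
    · rw [show a + 1 + b = (a+b)+1 by ring, p_succ (a+b) y h1]
      rw [← ih (y-1) (by omega), ← ih y (by omega), ← ih (y+1) (by omega)]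
      rw [← Finset.sum_add_distrib, ← Finset.sum_add_distrib, Finset.sum_div]
      apply Finset.sum_congr rfl
      intro i _
      simp only [k, h1, if_true]
      ring
    · rw [p_nonpos _ y (by omega)]
      apply Finset.sum_eq_zero
      intro i _
      simp only [k, h1, if_false, zero_mul]

lemma sum_k_one (N : ℕ) (a : ℕ) (y : ℤ) (hy : y + a ≤ N) :
    ∑ i ∈ range N, k a y ((i:ℤ)+1) = p a y := by
  have := sum_k 0 N a y hy
  rw [add_zero] at this
  rw [← this]
  apply Finset.sum_congr rfl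
  intro i _
  simp only [p]
  rw [if_pos (by omega), mul_one]

/-- merging two hanging paths into one. -/
lemma merge (α : ℤ → ℝ) (hα : Monotone α) (a b M : ℕ) (hM : 2 * a + b ≤ M) :
    0 ≤ ∑ i ∈ range M, α ((i:ℤ)+1) * (p a ((i:ℤ)+1) * p b ((i:ℤ)+1) - p (a+b) ((i:ℤ)+1)) := by
  have key : ∑ i ∈ range M, α ((i:ℤ)+1) * (p a ((i:ℤ)+1) * p b ((i:ℤ)+1) - p (a+b) ((i:ℤ)+1))
      = ∑ i ∈ range M, ∑ j ∈ range M,
        k a ((i:ℤ)+1) ((j:ℤ)+1) * (α ((i:ℤ)+1) * (p b ((i:ℤ)+1) - p b ((j:ℤ)+1))) := by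
    apply Finset.sum_congr rfl
    intro i hi
    by_cases h : ((i:ℤ)+1) + a ≤ M
    · rw [← sum_k b M a _ h, ← sum_k_one M a _ h, Finset.sum_mul, ← Finset.sum_sub_distrib,
        Finset.mul_sum]
      apply Finset.sum_congr rfl
      intro j _
      ring
    · rw [p_eq_one a _ (by omega), p_eq_one b _ (by omega), p_eq_one (a+b) _ (by push_cast; omega)]
      rw [one_mul, sub_self, mul_zero, eq_comm]
      apply Finset.sum_eq_zero
      intro j _
      by_cases h2 : (a:ℤ) < |((i:ℤ)+1) - ((j:ℤ)+1)|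
      · rw [k_far a _ _ h2, zero_mul]
      · rw [not_lt, abs_le] at h2
        rw [p_eq_one b ((j:ℤ)+1) (by omega), sub_self, mul_zero, mul_zero]
  rw [key]
  have swap : ∑ i ∈ range M, ∑ j ∈ range M,
        k a ((i:ℤ)+1) ((j:ℤ)+1) * (α ((i:ℤ)+1) * (p b ((i:ℤ)+1) - p b ((j:ℤ)+1)))
      = ∑ i ∈ range M, ∑ j ∈ range M,
        k a ((i:ℤ)+1) ((j:ℤ)+1) * (α ((j:ℤ)+1) * (p b ((j:ℤ)+1) - p b ((i:ℤ)+1))) := by
    rw [Finset.sum_comm]
    apply Finset.sum_congr rfl
    intro i _
    apply Finset.sum_congr rfl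
    intro j _
    rw [k_symm a ((i:ℤ)+1) ((j:ℤ)+1)]
  have dbl : 0 ≤ 2 * ∑ i ∈ range M, ∑ j ∈ range M,
        k a ((i:ℤ)+1) ((j:ℤ)+1) * (α ((i:ℤ)+1) * (p b ((i:ℤ)+1) - p b ((j:ℤ)+1))) := by
    rw [two_mul]
    nth_rewrite 2 [swap]
    rw [← Finset.sum_add_distrib]
    apply Finset.sum_nonneg
    intro i _
    rw [← Finset.sum_add_distrib]
    apply Finset.sum_nonneg
    intro j _
    have : k a ((i:ℤ)+1) ((j:ℤ)+1) * (α ((i:ℤ)+1) * (p b ((i:ℤ)+1) - p b ((j:ℤ)+1))) +
        k a ((i:ℤ)+1) ((j:ℤ)+1) * (α ((j:ℤ)+1) * (p b ((j:ℤ)+1) - p b ((i:ℤ)+1)))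
        = k a ((i:ℤ)+1) ((j:ℤ)+1) * ((α ((i:ℤ)+1) - α ((j:ℤ)+1)) * (p b ((i:ℤ)+1) - p b ((j:ℤ)+1))) := by
      ring
    rw [this]
    apply mul_nonneg (k_nonneg _ _ _)
    rcases le_total ((i:ℤ)+1) ((j:ℤ)+1) with h | h
    · exact mul_nonneg_of_nonpos_of_nonpos (sub_nonpos.mpr (hα h)) (sub_nonpos.mpr (p_mono b h))
    · exact mul_nonneg (sub_nonneg.mpr (hα h)) (sub_nonneg.mpr (p_mono b h))
  linarith



section graph

variable {V : Type*} [Fintype V] [DecidableEq V]

/-- `1`-Lipschitz maps. -/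
def Lip (G : SimpleGraph V) (f : V → ℤ) : Prop := ∀ u v, G.Adj u v → |f u - f v| ≤ 1

omit [Fintype V] [DecidableEq V] in
lemma Lip.shift {G : SimpleGraph V} {f : V → ℤ} (hf : Lip G f) (y : ℤ) :
    Lip G (fun v => f v + y) := by
  intro u v h
  have := hf u v h
  simpa using this

omit [Fintype V] [DecidableEq V] in
lemma Lip.neg {G : SimpleGraph V} {f : V → ℤ} (hf : Lip G f) :
    Lip G (fun v => - f v) := by
  intro u v h
  have := hf u v h
  show |(-f u) - (-f v)| ≤ 1
  rw [abs_le] at this ⊢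
  omega

omit [Fintype V] [DecidableEq V] in
lemma Lip.inf {G : SimpleGraph V} {f g : V → ℤ} (hf : Lip G f) (hg : Lip G g) :
    Lip G (f ⊓ g) := by
  intro u v h
  have h1 := hf u v h
  have h2 := hg u v h
  simp only [Pi.inf_apply]
  rw [abs_le] at h1 h2 ⊢
  omega

omit [Fintype V] [DecidableEq V] in
lemma Lip.sup {G : SimpleGraph V} {f g : V → ℤ} (hf : Lip G f) (hg : Lip G g) :
    Lip G (f ⊔ g) := by
  intro u v h
  have h1 := hf u v h
  have h2 := hg u v h
  simp only [Pi.sup_apply]
  rw [abs_le] at h1 h2 ⊢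
  omega

omit [Fintype V] [DecidableEq V] in
lemma Lip.walk {G : SimpleGraph V} {f : V → ℤ} (hf : Lip G f) {u v : V} (w : G.Walk u v) :
    |f u - f v| ≤ w.length := by
  induction w with
  | nil => simp
  | cons h q ih =>
    rename_i a b c
    have := hf a b h
    rw [SimpleGraph.Walk.length_cons]
    push_cast
    rw [abs_le] at *
    omega

/-- a crude bound for all distances. -/
noncomputable def D (G : SimpleGraph V) : ℕ := ∑ u, ∑ v, G.dist u v

omit [DecidableEq V] in
lemma Lip.le_D {G : SimpleGraph V} (hG : G.Connected) {f : V → ℤ} (hf : Lip G f) (u v : V) :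
    |f u - f v| ≤ (D G : ℤ) := by
  obtain ⟨w, hw⟩ := hG.exists_walk_length_eq_dist u v
  have h1 := hf.walk w
  rw [hw] at h1
  have h2 : G.dist u v ≤ D G := by
    unfold D
    calc G.dist u v ≤ ∑ v, G.dist u v := Finset.single_le_sum (f := fun v => G.dist u v)
          (fun _ _ => Nat.zero_le _) (Finset.mem_univ v)
      _ ≤ _ := Finset.single_le_sum (f := fun u => ∑ v, G.dist u v)
          (fun _ _ => Nat.zero_le _) (Finset.mem_univ u)
  have h3 : (G.dist u v : ℤ) ≤ (D G : ℤ) := by exact_mod_cast h2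
  linarith

open Classical in
/-- Lipschitz maps with values in the box `[-B,B]`. -/
noncomputable def Om (G : SimpleGraph V) (B : ℕ) : Finset (V → ℤ) :=
  (Fintype.piFinset (fun _ : V => Icc (-(B:ℤ)) B)).filter (Lip G)

lemma mem_Om {G : SimpleGraph V} {B : ℕ} {g : V → ℤ} :
    g ∈ Om G B ↔ Lip G g ∧ ∀ v, |g v| ≤ B := by
  classical
  simp only [Om, Finset.mem_filter, Fintype.mem_piFinset, Finset.mem_Icc, abs_le]
  tauto

/-- Lipschitz maps vanishing at `u`. -/
noncomputable def X (G : SimpleGraph V) (u : V) : Finset (V → ℤ) :=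
  (Om G (D G)).filter (fun f => f u = 0)

lemma mem_X {G : SimpleGraph V} (hG : G.Connected) {u : V} {f : V → ℤ} :
    f ∈ X G u ↔ Lip G f ∧ f u = 0 := by
  simp only [X, Finset.mem_filter, mem_Om]
  constructor
  · rintro ⟨⟨h, _⟩, h2⟩
    exact ⟨h, h2⟩
  · rintro ⟨h, h2⟩
    refine ⟨⟨h, fun v => ?_⟩, h2⟩
    have := h.le_D hG v u
    rwa [h2, sub_zero] at this

lemma fiber {G : SimpleGraph V} (hG : G.Connected) (u : V) (M B : ℕ) (hB : M + D G ≤ B)
    (δ : (V → ℤ) → ℝ) (hδ : ∀ g, Lip G g → δ g ≠ 0 → 1 ≤ g u ∧ g u ≤ M) :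
    ∑ g ∈ Om G B, δ g = ∑ i ∈ range M, ∑ f ∈ X G u, δ (fun v => f v + ((i:ℤ)+1)) := by
  rw [← Finset.sum_product']
  symm
  refine Finset.sum_bij_ne_zero (fun (q : ℕ × (V → ℤ)) _ _ => fun v => q.2 v + ((q.1:ℤ)+1)) ?_ ?_ ?_ ?_
  · rintro ⟨i, f⟩ hq _
    rw [Finset.mem_product, Finset.mem_range, mem_X hG] at hq
    obtain ⟨hi, hf, hf0⟩ := hq
    simp only at hi hf hf0 ⊢
    rw [mem_Om]
    refine ⟨hf.shift _, fun v => ?_⟩
    have := hf.le_D hG v u
    rw [hf0, sub_zero] at this
    rw [abs_le] at *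
    omega
  · rintro ⟨i, f⟩ hq _ ⟨j, g⟩ hq' _ heq
    rw [Finset.mem_product, Finset.mem_range, mem_X hG] at hq hq'
    obtain ⟨hi, hf, hf0⟩ := hq
    obtain ⟨hj, hg, hg0⟩ := hq'
    simp only at hi hf hf0 hj hg hg0 heq
    have h1 : f u + ((i:ℤ)+1) = g u + ((j:ℤ)+1) := congrFun heq u
    rw [hf0, hg0] at h1
    have h2 : i = j := by omega
    subst h2
    have h3 : f = g := by
      funext v
      have h4 : f v + ((i:ℤ)+1) = g v + ((i:ℤ)+1) := congrFun heq v
      linarith
    rw [h3]
  · intro g hg hne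
    rw [mem_Om] at hg
    obtain ⟨h1, h2⟩ := hδ g hg.1 hne
    have hmem : ((g u - 1).toNat, fun v => g v + (- g u)) ∈ range M ×ˢ X G u := by
      rw [Finset.mem_product, Finset.mem_range, mem_X hG]
      refine ⟨by simp only; omega, hg.1.shift _, by simp⟩
    have heq : (fun v => (fun v => g v + (- g u)) v + ((((g u - 1).toNat : ℕ):ℤ)+1)) = g := by
      funext v
      simp only
      omega
    refine ⟨((g u - 1).toNat, fun v => g v + (- g u)), hmem, ?_, heq⟩
    simp only at heq ⊢
    rw [heq]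
    exact hne
  · rintro ⟨i, f⟩ _ _
    rfl

/-- monotonicity of conditional averages (four functions theorem). -/
lemma cond_mono {G : SimpleGraph V} (hG : G.Connected) (u c : V) (t t' : ℤ) (htt : t ≤ t')
    (φ : (V → ℤ) → ℝ) (hφ : Monotone φ) (hφ0 : ∀ g, 0 ≤ φ g) :
    (∑ f ∈ (X G u).filter (fun f => f c = t), φ f) * (((X G u).filter (fun f => f c = t')).card : ℝ)
    ≤ (((X G u).filter (fun f => f c = t)).card : ℝ) *
      (∑ f ∈ (X G u).filter (fun f => f c = t'), φ f) := by
  classical
  have h := four_functions_theorem (α := V → ℤ) (β := ℝ) φ 1 1 φ hφ0 zero_le_one zero_le_one hφ0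
    (fun a b => by
      simp only [Pi.one_apply, mul_one, one_mul]
      exact hφ le_sup_left)
    ((X G u).filter (fun f => f c = t)) ((X G u).filter (fun f => f c = t'))
  simp only [Pi.one_apply, Finset.sum_const, nsmul_eq_mul, mul_one] at h
  refine h.trans ?_
  apply mul_le_mul
  · rw [Nat.cast_le]
    apply Finset.card_le_card
    intro g hg
    rw [Finset.mem_infs] at hg
    obtain ⟨a, ha, b, hb, rfl⟩ := hg
    rw [Finset.mem_filter, mem_X hG] at *
    refine ⟨⟨ha.1.1.inf hb.1.1, ?_⟩, ?_⟩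
    · simp [ha.1.2, hb.1.2]
    · simp [ha.2, hb.2, htt]
  · apply Finset.sum_le_sum_of_subset_of_nonneg
    · intro g hg
      rw [Finset.mem_sups] at hg
      obtain ⟨a, ha, b, hb, rfl⟩ := hg
      rw [Finset.mem_filter, mem_X hG] at *
      refine ⟨⟨ha.1.1.sup hb.1.1, ?_⟩, ?_⟩
      · simp [ha.1.2, hb.1.2]
      · simp [ha.2, hb.2, htt]
    · intro g _ _
      exact hφ0 g
  · exact Finset.sum_nonneg (fun g _ => hφ0 g)
  · exact Nat.cast_nonneg _

lemma card_neg {G : SimpleGraph V} (hG : G.Connected) (u c : V) (t : ℤ) :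
    ((X G u).filter (fun f => f c = -t)).card = ((X G u).filter (fun f => f c = t)).card := by
  apply Finset.card_bij (fun f _ => fun v => - f v)
  · intro f hf
    rw [Finset.mem_filter, mem_X hG] at *
    refine ⟨⟨hf.1.1.neg, ?_⟩, ?_⟩
    · simp [hf.1.2]
    · simp [hf.2]
  · intro f _ g _ h
    funext v
    have := congrFun h v
    simpa using this
  · intro f hf
    rw [Finset.mem_filter, mem_X hG] at hf
    refine ⟨fun v => - f v, ?_, ?_⟩
    · rw [Finset.mem_filter, mem_X hG]
      refine ⟨⟨hf.1.1.neg, ?_⟩, ?_⟩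
      · simp [hf.1.2]
      · simp [hf.2]
    · funext v
      simp

lemma card_one_le {G : SimpleGraph V} (hG : G.Connected) (u c : V) :
    ((X G u).filter (fun f => f c = 1)).card ≤ ((X G u).filter (fun f => f c = 0)).card := by
  classical
  set S1 := (X G u).filter (fun f => f c = 1) with hS1
  set S0 := (X G u).filter (fun f => f c = 0) with hS0
  set Sm := (X G u).filter (fun f => f c = -1) with hSm
  have hsh : Function.Injective (fun (f : V → ℤ) (v : V) => f v + 1) := by
    intro f g h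
    funext v
    have := congrFun h v
    simpa using this
  have h := Finset.le_card_infs_mul_card_sups S1 (Sm.image (fun (f : V → ℤ) (v : V) => f v + 1))
  rw [Finset.card_image_of_injective _ hsh] at h
  have e : Sm.card = S1.card := card_neg hG u c 1
  rw [e] at h
  have h1 : (S1 ⊼ (Sm.image (fun (f : V → ℤ) (v : V) => f v + 1))).card ≤ S0.card := by
    apply Finset.card_le_card
    intro g hg
    rw [Finset.mem_infs] at hg
    obtain ⟨a, ha, b, hb, rfl⟩ := hg
    rw [Finset.mem_image] at hb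
    obtain ⟨b, hb, rfl⟩ := hb
    rw [hS1, Finset.mem_filter, mem_X hG] at ha
    rw [hSm, Finset.mem_filter, mem_X hG] at hb
    rw [hS0, Finset.mem_filter, mem_X hG]
    refine ⟨⟨ha.1.1.inf (hb.1.1.shift 1), ?_⟩, ?_⟩
    · simp [ha.1.2, hb.1.2]
    · simp [ha.2, hb.2]
  have h2 : (S1 ⊻ (Sm.image (fun (f : V → ℤ) (v : V) => f v + 1))).card ≤ S0.card := by
    rw [← Finset.card_image_of_injective S0 hsh]
    apply Finset.card_le_card
    intro g hg
    rw [Finset.mem_sups] at hg
    obtain ⟨a, ha, b, hb, rfl⟩ := hg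
    rw [Finset.mem_image] at hb
    obtain ⟨b, hb, rfl⟩ := hb
    rw [hS1, Finset.mem_filter, mem_X hG] at ha
    rw [hSm, Finset.mem_filter, mem_X hG] at hb
    rw [Finset.mem_image]
    refine ⟨fun v => (a ⊔ (fun v => b v + 1)) v + (-1), ?_, ?_⟩
    · rw [hS0, Finset.mem_filter, mem_X hG]
      refine ⟨⟨(ha.1.1.sup (hb.1.1.shift 1)).shift (-1), ?_⟩, ?_⟩
      · simp [ha.1.2, hb.1.2]
      · simp [ha.2, hb.2]
    · funext v
      simp
  have h3 : S1.card * S1.card ≤ S0.card * S0.card := h.trans (Nat.mul_le_mul h1 h2)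
  exact Nat.mul_self_le_mul_self_iff.mp h3

lemma abel (S d : ℕ → ℝ) (hS : Monotone S) (hS0 : S 0 = 0) (hd : ∀ i, 0 ≤ d i) (M : ℕ) :
    0 ≤ ∑ i ∈ range M, S (i+1) * (d (i+1) - d (i+2)) + S M * d (M+1) := by
  induction M with
  | zero => simp [hS0]
  | succ M ih =>
    rw [Finset.sum_range_succ]
    have h1 : 0 ≤ (S (M+1) - S M) * d (M+1) :=
      mul_nonneg (sub_nonneg.mpr (hS (Nat.le_succ M))) (hd _)
    have h2 : M + 1 + 1 = M + 2 := rfl
    rw [h2]
    nlinarith [ih, h1]


lemma split_sum {G : SimpleGraph V} (hG : G.Connected) {u c : V} (huc : G.Adj u c)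
    (F : (V → ℤ) → ℝ) :
    ∑ f ∈ X G u, F f = ∑ f ∈ (X G u).filter (fun f => f c = 1), F f
      + ∑ f ∈ (X G u).filter (fun f => f c = 0), F f
      + ∑ f ∈ (X G u).filter (fun f => f c = -1), F f := by
  rw [Finset.sum_filter, Finset.sum_filter, Finset.sum_filter, ← Finset.sum_add_distrib,
    ← Finset.sum_add_distrib]
  apply Finset.sum_congr rfl
  intro f hf
  rw [mem_X hG] at hf
  have h := hf.1 u c huc
  rw [hf.2, abs_le] at h
  have h3 : f c = 1 ∨ f c = 0 ∨ f c = -1 := by omega
  rcases h3 with h3 | h3 | h3 <;> simp [h3]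

/-- the quantitative form of `detach` below. -/
lemma detach_key {G : SimpleGraph V} (hG : G.Connected) {u c : V} (huc : G.Adj u c)
    (w : (V → ℤ) → ℝ) (hw : Monotone w) (hw0 : ∀ g, 0 ≤ w g) (hwu : ∀ g, g u ≤ 0 → w g = 0)
    (h : ℤ → ℝ) (hh : Monotone h) (m M B : ℕ) (hm : ∀ y, (m:ℤ) ≤ y → h y = h m)
    (hM : m + 1 ≤ M) (hB : M + D G ≤ B) :
    ((((X G u).filter (fun f => f c = 0)).card : ℝ) - ((X G u).filter (fun f => f c = 1)).card) /
        (3 * ((X G u).filter (fun f => f c = 0)).card) *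
      ∑ i ∈ range M, (∑ f ∈ (X G u).filter (fun f => f c = 0), w (fun v => f v + ((i + 1 : ℕ) : ℤ))) *
        ((h ((i + 1 : ℕ) : ℤ) - h (((i + 1 : ℕ) : ℤ) - 1)) -
          (h ((i + 2 : ℕ) : ℤ) - h (((i + 2 : ℕ) : ℤ) - 1)))
      ≤ ∑ g ∈ Om G B, w g * (h (g c) - (h (g u - 1) + h (g u) + h (g u + 1)) / 3) := by
  rw [fiber hG u M B hB (fun g => w g * (h (g c) - (h (g u - 1) + h (g u) + h (g u + 1)) / 3))]
  swap
  · intro g hg hne
    by_contra hcon
    apply hne
    by_cases h1 : g u ≤ 0
    · rw [hwu g h1, zero_mul]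
    · have h2 : (M:ℤ) < g u := by omega
      have h3 := hg u c huc
      rw [abs_le] at h3
      rw [hm (g c) (by omega), hm (g u -1) (by omega), hm (g u) (by omega), hm (g u+1) (by omega)]
      ring
  set X1 := (X G u).filter (fun f => f c = 1) with hX1
  set X0 := (X G u).filter (fun f => f c = 0) with hX0
  set Xm := (X G u).filter (fun f => f c = -1) with hXm
  have hN0 : (0:ℝ) < (X0.card : ℝ) := by
    rw [Nat.cast_pos, Finset.card_pos]
    refine ⟨fun _ => 0, ?_⟩
    rw [hX0, Finset.mem_filter, mem_X hG]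
    refine ⟨⟨fun a b _ => by simp, rfl⟩, rfl⟩
  have hN1 : (X1.card : ℝ) ≤ X0.card := by exact_mod_cast card_one_le hG u c
  have hNm : (Xm.card : ℝ) = X1.card := by
    have := card_neg hG u c 1
    exact_mod_cast this
  have hN1' : (0:ℝ) ≤ (X1.card : ℝ) := Nat.cast_nonneg _
  -- the functions S0 and d
  set S : ℕ → ℝ := fun j => ∑ f ∈ X0, w (fun v => f v + (j:ℤ)) with hS
  set d : ℕ → ℝ := fun j => h (j:ℤ) - h ((j:ℤ) - 1) with hd
  have hSmono : Monotone S := by
    intro i j hij
    simp only [hS]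
    apply Finset.sum_le_sum
    intro f _
    apply hw
    intro v
    simp only
    have : (i:ℤ) ≤ j := by exact_mod_cast hij
    linarith
  have hS0 : S 0 = 0 := by
    simp only [hS]
    apply Finset.sum_eq_zero
    intro f hf
    rw [hX0, Finset.mem_filter, mem_X hG] at hf
    apply hwu
    simp [hf.1.2]
  have hdn : ∀ i, 0 ≤ d i := by
    intro i
    simp only [hd]
    have := hh (show (i:ℤ) - 1 ≤ i by omega)
    linarith
  have key : ∀ i ∈ range M,
      (X0.card - X1.card : ℝ) / (3 * X0.card) * (S (i+1) * (d (i+1) - d (i+2))) ≤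
      ∑ f ∈ X G u, (fun g : V → ℤ => w g * (h (g c) - (h (g u - 1) + h (g u) + h (g u + 1)) / 3))
        (fun v => f v + ((i:ℤ)+1)) := by
    intro i _
    rw [split_sum hG huc]
    set y : ℤ := (i:ℤ) + 1 with hy
    set A : ℝ := (h (y-1) + h y + h (y+1)) / 3 with hA
    have e1 : ∑ f ∈ X1, (fun g : V → ℤ => w g * (h (g c) - (h (g u - 1) + h (g u) + h (g u + 1)) / 3))
        (fun v => f v + y) = (∑ f ∈ X1, w (fun v => f v + y)) * (h (y+1) - A) := by
      rw [Finset.sum_mul]
      apply Finset.sum_congr rfl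
      intro f hf
      rw [hX1, Finset.mem_filter, mem_X hG] at hf
      simp only [hf.2, hf.1.2, zero_add, hA]
      rw [show (1:ℤ) + y = y + 1 by ring]
    have e0 : ∑ f ∈ X0, (fun g : V → ℤ => w g * (h (g c) - (h (g u - 1) + h (g u) + h (g u + 1)) / 3))
        (fun v => f v + y) = (∑ f ∈ X0, w (fun v => f v + y)) * (h y - A) := by
      rw [Finset.sum_mul]
      apply Finset.sum_congr rfl
      intro f hf
      rw [hX0, Finset.mem_filter, mem_X hG] at hf
      simp only [hf.2, hf.1.2, zero_add, hA]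
    have em : ∑ f ∈ Xm, (fun g : V → ℤ => w g * (h (g c) - (h (g u - 1) + h (g u) + h (g u + 1)) / 3))
        (fun v => f v + y) = (∑ f ∈ Xm, w (fun v => f v + y)) * (h (y-1) - A) := by
      rw [Finset.sum_mul]
      apply Finset.sum_congr rfl
      intro f hf
      rw [hXm, Finset.mem_filter, mem_X hG] at hf
      simp only [hf.2, hf.1.2, zero_add, hA]
      rw [show (-1:ℤ) + y = y - 1 by ring]
    rw [e1, e0, em]
    have hwm : Monotone (fun f : V → ℤ => w (fun v => f v + y)) := by
      intro f g hfg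
      apply hw
      intro v
      have := hfg v
      simp only
      linarith
    have f1 := cond_mono hG u c 0 1 (by norm_num) (fun f : V → ℤ => w (fun v => f v + y)) hwm
      (fun g => hw0 _)
    have f2 := cond_mono hG u c (-1) 0 (by norm_num) (fun f : V → ℤ => w (fun v => f v + y)) hwm
      (fun g => hw0 _)
    rw [← hX0, ← hX1] at f1
    rw [← hX0, ← hXm, hNm] at f2
    set s1 := ∑ f ∈ X1, w (fun v => f v + y) with hs1
    set s0 := ∑ f ∈ X0, w (fun v => f v + y) with hs0
    set sm := ∑ f ∈ Xm, w (fun v => f v + y) with hsm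
    have hS1 : S (i+1) = s0 := by
      simp only [hS, hs0, hy]
      push_cast
      rfl
    have d1 : d (i+1) = h y - h (y-1) := by
      simp only [hd, hy]
      push_cast
      rfl
    have d2 : d (i+2) = h (y+1) - h y := by
      simp only [hd, hy]
      push_cast
      rw [show (i:ℤ) + 2 = (i:ℤ) + 1 + 1 by ring, show (i:ℤ) + 1 + 1 - 1 = (i:ℤ) + 1 by ring]
    rw [hS1, d1, d2]
    have g1 : h (y-1) ≤ h y := hh (by omega)
    have g2 : h y ≤ h (y+1) := hh (by omega)
    have c1 : 0 ≤ h (y+1) - A := by rw [hA]; linarith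
    have c2 : 0 ≤ A - h (y-1) := by rw [hA]; linarith
    -- lower bounds for s1, upper bound for sm
    have b1 : s0 * X1.card / X0.card ≤ s1 := by
      rw [div_le_iff₀ hN0]
      linarith
    have b2 : sm ≤ s0 * X1.card / X0.card := by
      rw [le_div_iff₀ hN0]
      linarith
    have b3 := mul_le_mul_of_nonneg_right b1 c1
    have b4 := mul_le_mul_of_nonneg_right b2 c2
    have id : (X0.card - X1.card : ℝ) / (3 * X0.card) * (s0 * (h y - h (y-1) - (h (y+1) - h y)))
        = s0 * X1.card / X0.card * (h (y+1) - A) + s0 * (h y - A)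
          - s0 * X1.card / X0.card * (A - h (y-1)) := by
      rw [hA]
      field_simp
      ring
    rw [id]
    linarith
  rw [Finset.mul_sum]
  exact Finset.sum_le_sum key

/-- detaching the vertex `c` (with whatever hangs at it) from everything but `u`. -/
lemma detach {G : SimpleGraph V} (hG : G.Connected) {u c : V} (huc : G.Adj u c)
    (w : (V → ℤ) → ℝ) (hw : Monotone w) (hw0 : ∀ g, 0 ≤ w g) (hwu : ∀ g, g u ≤ 0 → w g = 0)
    (h : ℤ → ℝ) (hh : Monotone h) (m M B : ℕ) (hm : ∀ y, (m:ℤ) ≤ y → h y = h m)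
    (hM : m + 1 ≤ M) (hB : M + D G ≤ B) :
    0 ≤ ∑ g ∈ Om G B, w g * (h (g c) - (h (g u - 1) + h (g u) + h (g u + 1)) / 3) := by
  refine le_trans ?_ (detach_key hG huc w hw hw0 hwu h hh m M B hm hM hB)
  have hN1 : (((X G u).filter (fun f => f c = 1)).card : ℝ) ≤
      ((X G u).filter (fun f => f c = 0)).card := by exact_mod_cast card_one_le hG u c
  set S : ℕ → ℝ := fun j => ∑ f ∈ (X G u).filter (fun f => f c = 0), w (fun v => f v + (j:ℤ)) with hS
  set d : ℕ → ℝ := fun j => h (j:ℤ) - h ((j:ℤ) - 1) with hd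
  have hSmono : Monotone S := by
    intro i j hij
    simp only [hS]
    apply Finset.sum_le_sum
    intro f _
    apply hw
    intro v
    simp only
    have : (i:ℤ) ≤ j := by exact_mod_cast hij
    linarith
  have hS0 : S 0 = 0 := by
    simp only [hS]
    apply Finset.sum_eq_zero
    intro f hf
    rw [Finset.mem_filter, mem_X hG] at hf
    apply hwu
    simp [hf.1.2]
  have hdn : ∀ i, 0 ≤ d i := by
    intro i
    simp only [hd]
    have := hh (show (i:ℤ) - 1 ≤ i by omega)
    linarith
  apply mul_nonneg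
  · apply div_nonneg
    · linarith
    · positivity
  · have hab := abel S d hSmono hS0 hdn M
    have hdM : d (M+1) = 0 := by
      simp only [hd]
      push_cast
      rw [hm ((M:ℤ)+1) (by omega), hm ((M:ℤ)+1-1) (by omega), sub_self]
    rw [hdM, mul_zero, add_zero] at hab
    exact hab

/-- merging two hanging paths. -/
lemma merge_graph {G : SimpleGraph V} (hG : G.Connected) (u : V)
    (w : (V → ℤ) → ℝ) (hw : Monotone w) (a b M B : ℕ)
    (hM : 2 * a + b ≤ M) (hB : M + D G ≤ B) :
    0 ≤ ∑ g ∈ Om G B, w g * (p a (g u) * p b (g u) - p (a+b) (g u)) := by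
  rw [fiber hG u M B hB (fun g => w g * (p a (g u) * p b (g u) - p (a+b) (g u)))]
  · have hα : Monotone (fun y : ℤ => ∑ f ∈ X G u, w (fun v => f v + y)) := by
      intro y z hyz
      simp only
      apply Finset.sum_le_sum
      intro f _
      apply hw
      intro v
      show f v + y ≤ f v + z
      linarith
    have := merge _ hα a b M hM
    refine this.trans_eq ?_
    apply Finset.sum_congr rfl
    intro i _
    rw [Finset.sum_mul]
    apply Finset.sum_congr rfl
    intro f hf
    rw [mem_X hG] at hf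
    simp only [hf.2, zero_add]
  · intro g _ hne
    by_contra hcon
    apply hne
    by_cases h1 : g u ≤ 0
    · rw [p_nonpos a _ h1, p_nonpos (a+b) _ h1]
      ring
    · rw [p_eq_one a _ (by omega), p_eq_one b _ (by omega), p_eq_one (a+b) _ (by push_cast; omega)]
      ring

/-- the weight of a configuration. -/
noncomputable def W (C : Finset V) (ℓ : V → ℕ) (g : V → ℤ) : ℝ := ∏ j ∈ C, p (ℓ j) (g j)

omit [Fintype V] [DecidableEq V] in
lemma W_nonneg (C : Finset V) (ℓ : V → ℕ) (g : V → ℤ) : 0 ≤ W C ℓ g :=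
  Finset.prod_nonneg (fun _ _ => p_nonneg _ _)

omit [Fintype V] [DecidableEq V] in
lemma W_mono (C : Finset V) (ℓ : V → ℕ) : Monotone (W C ℓ) := by
  intro f g hfg
  exact Finset.prod_le_prod (fun _ _ => p_nonneg _ _) (fun j _ => p_mono _ (hfg j))

lemma step {G : SimpleGraph V} (hG : G.Connected) {u c : V} (huc : G.Adj u c)
    (C : Finset V) (hc : c ∈ C) (hu : u ∈ C) (ℓ : V → ℕ) (N M B : ℕ) (hN : ∀ j ∈ C, ℓ j ≤ N)
    (hM : 3 * N + 3 ≤ M) (hB : M + D G ≤ B) :
    ∑ g ∈ Om G B, W (C.erase c) (Function.update ℓ u (ℓ u + (ℓ c + 1))) g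
      ≤ ∑ g ∈ Om G B, W C ℓ g := by
  have huc' : u ≠ c := huc.ne
  have huR : u ∈ C.erase c := Finset.mem_erase.mpr ⟨huc', hu⟩
  have hNc := hN c hc
  have hNu := hN u hu
  -- first inequality
  have s1 : ∑ g ∈ Om G B, W (C.erase c) ℓ g * p (ℓ c + 1) (g u) ≤ ∑ g ∈ Om G B, W C ℓ g := by
    have h := detach hG huc (W (C.erase c) ℓ) (W_mono _ _) (W_nonneg _ _)
      (fun g hg => Finset.prod_eq_zero huR (p_nonpos _ _ hg)) (p (ℓ c)) (p_mono _) (ℓ c + 1) M B
      (fun y hy => by
        rw [p_eq_one (ℓ c) y (by push_cast at hy; omega), p_eq_one (ℓ c) _ (by push_cast; omega)])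
      (by omega) hB
    rw [← sub_nonneg, ← Finset.sum_sub_distrib]
    refine h.trans_eq ?_
    apply Finset.sum_congr rfl
    intro g _
    have e : W C ℓ g = W (C.erase c) ℓ g * p (ℓ c) (g c) := by
      unfold W
      rw [mul_comm, Finset.mul_prod_erase C (fun j => p (ℓ j) (g j)) hc]
    rw [e]
    by_cases hg : 1 ≤ g u
    · rw [p_succ (ℓ c) (g u) hg]
      ring
    · have : W (C.erase c) ℓ g = 0 := Finset.prod_eq_zero huR (p_nonpos _ _ (by omega))
      rw [this]
      ring
  refine le_trans ?_ s1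
  -- second inequality
  have h := merge_graph hG u (W ((C.erase c).erase u) ℓ) (W_mono _ _) (ℓ u) (ℓ c + 1) M B
    (by omega) hB
  rw [← sub_nonneg, ← Finset.sum_sub_distrib]
  refine h.trans_eq ?_
  apply Finset.sum_congr rfl
  intro g _
  have e1 : W (C.erase c) ℓ g = W ((C.erase c).erase u) ℓ g * p (ℓ u) (g u) := by
    unfold W
    rw [mul_comm, Finset.mul_prod_erase (C.erase c) (fun j => p (ℓ j) (g j)) huR]
  have e2 : W (C.erase c) (Function.update ℓ u (ℓ u + (ℓ c + 1))) g
      = W ((C.erase c).erase u) ℓ g * p (ℓ u + (ℓ c + 1)) (g u) := by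
    unfold W
    rw [← Finset.mul_prod_erase (C.erase c)
      (fun j => p (Function.update ℓ u (ℓ u + (ℓ c + 1)) j) (g j)) huR, mul_comm]
    simp only [Function.update_self]
    congr 1
    apply Finset.prod_congr rfl
    intro j hj
    rw [Function.update_of_ne (Finset.ne_of_mem_erase hj)]
  rw [e1, e2]
  ring

/-- main induction: the whole graph can be replaced by a path hanging at the root. -/
lemma main_ind {G : SimpleGraph V} (hG : G.Connected) (r : V) (par : V → V) (rank : V → ℕ)
    (hpar : ∀ v, v ≠ r → G.Adj (par v) v ∧ rank (par v) < rank v) (N M B : ℕ)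
    (hM : 3 * N + 3 ≤ M) (hB : M + D G ≤ B) :
    ∀ (k : ℕ) (C : Finset V), C.card = k + 1 → r ∈ C → (∀ v ∈ C, v ≠ r → par v ∈ C) →
      ∀ ℓ : V → ℕ, ∑ j ∈ C, (ℓ j + 1) = N + 1 →
        ∑ g ∈ Om G B, p N (g r) ≤ ∑ g ∈ Om G B, W C ℓ g := by
  intro k
  induction k with
  | zero =>
    intro C hC hr _ ℓ hℓ
    obtain ⟨a, ha⟩ := Finset.card_eq_one.mp hC
    rw [ha, Finset.mem_singleton] at hr
    subst hr
    rw [ha, Finset.sum_singleton] at hℓ
    apply le_of_eq
    apply Finset.sum_congr rfl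
    intro g _
    unfold W
    rw [ha, Finset.prod_singleton]
    have : ℓ r = N := by omega
    rw [this]
  | succ k ih =>
    intro C hC hr hcl ℓ hℓ
    have hne : (C.erase r).Nonempty := by
      rw [← Finset.card_pos, Finset.card_erase_of_mem hr]
      omega
    obtain ⟨c, hc, hmax⟩ := Finset.exists_max_image (C.erase r) rank hne
    rw [Finset.mem_erase] at hc
    obtain ⟨hcr, hcC⟩ := hc
    have hadj := (hpar c hcr).1
    have hrk := (hpar c hcr).2
    have huC : par c ∈ C := hcl c hcC hcr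
    have hNb : ∀ j ∈ C, ℓ j ≤ N := by
      intro j hj
      have := Finset.single_le_sum (f := fun j => ℓ j + 1) (fun _ _ => Nat.zero_le _) hj
      omega
    refine le_trans ?_ (step hG hadj C hcC huC ℓ N M B hNb hM hB)
    apply ih
    · rw [Finset.card_erase_of_mem hcC, hC]
      omega
    · exact Finset.mem_erase.mpr ⟨hcr.symm, hr⟩
    · intro v hv hvr
      rw [Finset.mem_erase] at hv ⊢
      refine ⟨?_, hcl v hv.2 hvr⟩
      intro heq
      have h1 := (hpar v hvr).2
      have h2 := hmax v (Finset.mem_erase.mpr ⟨hvr, hv.2⟩)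
      rw [heq] at h1
      omega
    · have huR : par c ∈ C.erase c := Finset.mem_erase.mpr ⟨hadj.ne, huC⟩
      rw [← Finset.add_sum_erase (C.erase c) _ huR]
      rw [← Finset.add_sum_erase C _ hcC, ← Finset.add_sum_erase (C.erase c) _ huR] at hℓ
      have : ∑ x ∈ (C.erase c).erase (par c),
          (Function.update ℓ (par c) (ℓ (par c) + (ℓ c + 1)) x + 1)
          = ∑ x ∈ (C.erase c).erase (par c), (ℓ x + 1) := by
        apply Finset.sum_congr rfl
        intro j hj
        rw [Function.update_of_ne (Finset.ne_of_mem_erase hj)]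
      rw [this, Function.update_self]
      omega


omit [Fintype V] [DecidableEq V] in
lemma exists_par {G : SimpleGraph V} (hG : G.Connected) (r : V) :
    ∃ par : V → V, ∀ v, v ≠ r → G.Adj (par v) v ∧ G.dist (par v) r < G.dist v r := by
  have h : ∀ v, ∃ v', v ≠ r → G.Adj v' v ∧ G.dist v' r < G.dist v r := by
    intro v
    by_cases hv : v = r
    · exact ⟨v, fun h => absurd hv h⟩
    · obtain ⟨w, hw⟩ := hG.exists_walk_length_eq_dist v r
      cases w with
      | nil => exact absurd rfl hv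
      | cons h q =>
        rename_i v'
        refine ⟨v', fun _ => ⟨h.symm, ?_⟩⟩
        rw [SimpleGraph.Walk.length_cons] at hw
        have := SimpleGraph.dist_le q
        omega
  choose par hpar using h
  exact ⟨par, hpar⟩

/-- number of levels `-(i+1)`, `i < M`, that `f` reaches. -/
noncomputable def low (M : ℕ) (f : V → ℤ) : ℕ := by
  classical
  exact ((range M).filter (fun i : ℕ => ∃ v, f v + ((i:ℤ)+1) ≤ 0)).card

/-- the constant attached to the path. -/
noncomputable def E (n M : ℕ) : ℝ := ∑ i ∈ range M, (1 - p n ((i:ℤ)+1))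

omit [DecidableEq V] in
lemma W_zero (g : V → ℤ) : W Finset.univ (fun _ => 0) g = if ∃ v, g v ≤ 0 then 0 else 1 := by
  unfold W
  split_ifs with h
  · obtain ⟨v, hv⟩ := h
    exact Finset.prod_eq_zero (Finset.mem_univ v) (p_nonpos _ _ hv)
  · apply Finset.prod_eq_one
    intro v _
    push Not at h
    have := h v
    rw [p_eq_one 0 _ (by push_cast; omega)]

lemma low_sum_le {G : SimpleGraph V} (hG : G.Connected) (r : V) (n M : ℕ)
    (hn : Fintype.card V = n + 1) (hM : 3 * n + 3 + D G ≤ M) :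
    ∑ f ∈ X G r, (low M f : ℝ) ≤ (X G r).card * E n M := by
  classical
  obtain ⟨par, hpar⟩ := exists_par hG r
  have h1 := main_ind hG r par (fun v => G.dist v r) hpar n M (M + D G) (by omega) le_rfl
    n Finset.univ (by rw [Finset.card_univ, hn]) (Finset.mem_univ r)
    (fun _ _ _ => Finset.mem_univ _) (fun _ => 0)
    (by simp [hn])
  rw [← sub_nonneg, ← Finset.sum_sub_distrib] at h1
  rw [fiber hG r M (M + D G) le_rfl
    (fun g => W Finset.univ (fun _ => 0) g - p n (g r))] at h1
  swap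
  · intro g hg hne
    by_contra hcon
    apply hne
    by_cases h2 : g r ≤ 0
    · rw [W_zero, if_pos ⟨r, h2⟩, p_nonpos _ _ h2, sub_self]
    · have h3 : (M:ℤ) < g r := by omega
      have h4 : ¬ ∃ v, g v ≤ 0 := by
        rintro ⟨v, hv⟩
        have := hg.le_D hG r v
        rw [abs_le] at this
        omega
      rw [W_zero, if_neg h4, p_eq_one n _ (by omega), sub_self]
  rw [Finset.sum_comm] at h1
  have h5 : ∀ f ∈ X G r, ∑ i ∈ range M,
      (W Finset.univ (fun _ => 0) (fun v => f v + ((i:ℤ)+1)) - p n (f r + ((i:ℤ)+1)))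
      = E n M - low M f := by
    intro f hf
    rw [mem_X hG] at hf
    unfold E low
    rw [Finset.card_filter, Nat.cast_sum, ← Finset.sum_sub_distrib]
    apply Finset.sum_congr rfl
    intro i _
    rw [W_zero, hf.2, zero_add]
    split_ifs <;> simp
  rw [Finset.sum_congr rfl h5, Finset.sum_sub_distrib, Finset.sum_const, nsmul_eq_mul] at h1
  linarith

omit [Fintype V] [DecidableEq V] in
/-- discrete intermediate values. -/
lemma ivt {G : SimpleGraph V} {f : V → ℤ} (hf : Lip G f) {u v : V} (w : G.Walk u v) (y : ℤ)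
    (h1 : f u ≤ y) (h2 : y ≤ f v) : ∃ x, f x = y := by
  induction w with
  | nil => exact ⟨_, le_antisymm h1 h2⟩
  | cons h q ih =>
    rename_i a b c
    by_cases he : f a = y
    · exact ⟨a, he⟩
    · have h3 := hf a b h
      rw [abs_le] at h3
      exact ih (by omega) h2

lemma range_card {G : SimpleGraph V} (hG : G.Connected) {r : V} {f : V → ℤ} (hf : f ∈ X G r)
    (M : ℕ) (hM : D G ≤ M) :
    (Set.range f).ncard = 1 + low M f + low M (fun v => - f v) := by
  classical
  rw [mem_X hG] at hf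
  set A := (range M).filter (fun i : ℕ => ∃ v, f v + ((i:ℤ)+1) ≤ 0) with hA
  set A' := (range M).filter (fun i : ℕ => ∃ v, - f v + ((i:ℤ)+1) ≤ 0) with hA'
  have hlow : low M f = A.card := rfl
  have hlow' : low M (fun v => - f v) = A'.card := rfl
  set S : Finset ℤ := {0} ∪ A.image (fun i : ℕ => -((i:ℤ)+1)) ∪ A'.image (fun i : ℕ => (i:ℤ)+1) with hS
  have hSr : Set.range f = (S : Set ℤ) := by
    ext y
    rw [Finset.mem_coe, hS, Finset.mem_union, Finset.mem_union, Finset.mem_singleton,
      Finset.mem_image, Finset.mem_image]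
    constructor
    · rintro ⟨v, rfl⟩
      have hb := hf.1.le_D hG v r
      rw [hf.2, sub_zero, abs_le] at hb
      rcases lt_trichotomy (f v) 0 with h | h | h
      · left; right
        refine ⟨(-f v - 1).toNat, ?_, by omega⟩
        rw [hA, Finset.mem_filter, Finset.mem_range]
        exact ⟨by omega, v, by omega⟩
      · left; left; exact h
      · right
        refine ⟨(f v - 1).toNat, ?_, by omega⟩
        rw [hA', Finset.mem_filter, Finset.mem_range]
        exact ⟨by omega, v, by omega⟩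
    · rintro ((h | ⟨i, hi, h⟩) | ⟨i, hi, h⟩)
      · exact ⟨r, by rw [hf.2, h]⟩
      · rw [hA, Finset.mem_filter] at hi
        obtain ⟨_, v, hv⟩ := hi
        obtain ⟨w⟩ := hG.preconnected v r
        obtain ⟨x, hx⟩ := ivt hf.1 w y (by omega) (by rw [hf.2]; omega)
        exact ⟨x, hx⟩
      · rw [hA', Finset.mem_filter] at hi
        obtain ⟨_, v, hv⟩ := hi
        obtain ⟨w⟩ := hG.preconnected r v
        obtain ⟨x, hx⟩ := ivt hf.1 w y (by rw [hf.2]; omega) (by omega)
        exact ⟨x, hx⟩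
  rw [hSr, Set.ncard_coe_finset, hS, hlow, hlow']
  rw [Finset.card_union_of_disjoint, Finset.card_union_of_disjoint, Finset.card_singleton,
    Finset.card_image_of_injective, Finset.card_image_of_injective]
  · intro i j h
    simp only at h
    omega
  · intro i j h
    simp only at h
    omega
  · rw [Finset.disjoint_singleton_left, Finset.mem_image]
    rintro ⟨i, _, h⟩
    omega
  · rw [Finset.disjoint_left]
    intro y hy hy'
    rw [Finset.mem_union, Finset.mem_singleton, Finset.mem_image] at hy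
    rw [Finset.mem_image] at hy'
    obtain ⟨j, _, hj⟩ := hy'
    rcases hy with h | ⟨i, _, h⟩ <;> omega

lemma low_neg_sum {G : SimpleGraph V} (hG : G.Connected) (r : V) (M : ℕ) :
    ∑ f ∈ X G r, (low M (fun v => - f v) : ℝ) = ∑ f ∈ X G r, (low M f : ℝ) := by
  apply Finset.sum_bij (fun f _ => fun v => - f v)
  · intro f hf
    rw [mem_X hG] at *
    exact ⟨hf.1.neg, by simp [hf.2]⟩
  · intro f _ g _ h
    funext v
    have := congrFun h v
    simpa using this
  · intro f hf
    rw [mem_X hG] at hf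
    refine ⟨fun v => - f v, ?_, ?_⟩
    · rw [mem_X hG]
      exact ⟨hf.1.neg, by simp [hf.2]⟩
    · funext v
      simp
  · intro f _
    rfl

lemma range_sum {G : SimpleGraph V} (hG : G.Connected) (r : V) (M : ℕ) (hM : D G ≤ M) :
    ∑ f ∈ X G r, ((Set.range f).ncard : ℝ) = (X G r).card + 2 * ∑ f ∈ X G r, (low M f : ℝ) := by
  have h : ∀ f ∈ X G r, ((Set.range f).ncard : ℝ)
      = 1 + (low M f : ℝ) + (low M (fun v => - f v) : ℝ) := by
    intro f hf
    rw [range_card hG hf M hM]
    push_cast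
    ring
  rw [Finset.sum_congr rfl h, Finset.sum_add_distrib, Finset.sum_add_distrib, low_neg_sum hG,
    Finset.sum_const, nsmul_eq_mul, mul_one]
  ring

lemma X_card_pos {G : SimpleGraph V} (hG : G.Connected) (r : V) : 0 < (X G r).card := by
  rw [Finset.card_pos]
  exact ⟨fun _ => 0, by rw [mem_X hG]; exact ⟨fun a b _ => by simp, rfl⟩⟩

end graph

section path

/-- Lipschitz along the path. -/
def PL (n : ℕ) (f : Fin (n+1) → ℤ) : Prop := ∀ i : Fin n, |f i.castSucc - f i.succ| ≤ 1

lemma PL_iff (n : ℕ) (f : Fin (n+1) → ℤ) : Lip (SimpleGraph.pathGraph (n+1)) f ↔ PL n f := by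
  constructor
  · intro h i
    apply h
    rw [SimpleGraph.pathGraph_adj]
    left
    simp
  · intro h u v huv
    rw [SimpleGraph.pathGraph_adj] at huv
    rcases huv with huv | huv
    · have := h ⟨u.val, by omega⟩
      have e1 : (⟨u.val, by omega⟩ : Fin n).castSucc = u := by ext; simp
      have e2 : (⟨u.val, by omega⟩ : Fin n).succ = v := by ext; simp [huv]
      rwa [e1, e2] at this
    · have := h ⟨v.val, by omega⟩
      have e1 : (⟨v.val, by omega⟩ : Fin n).castSucc = v := by ext; simp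
      have e2 : (⟨v.val, by omega⟩ : Fin n).succ = u := by ext; simp [huv]
      rw [e1, e2] at this
      rwa [abs_sub_comm]

/-- all Lipschitz maps on the path started at `y`. -/
noncomputable def Lp : (n : ℕ) → ℤ → Finset (Fin (n+1) → ℤ)
  | 0, y => {fun _ => y}
  | (n+1), y => (Lp n (y-1) ∪ Lp n y ∪ Lp n (y+1)).image (fun g => Fin.cons y g)

lemma mem_Lp (n : ℕ) : ∀ (y : ℤ) (f : Fin (n+1) → ℤ), f ∈ Lp n y ↔ f 0 = y ∧ PL n f := by
  induction n with
  | zero =>
    intro y f
    simp only [Lp, Finset.mem_singleton, PL]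
    constructor
    · rintro rfl
      exact ⟨rfl, fun i => i.elim0⟩
    · rintro ⟨h, _⟩
      funext i
      have : i = 0 := Fin.ext (by omega)
      rw [this, h]
  | succ n ih =>
    intro y f
    simp only [Lp, Finset.mem_image, Finset.mem_union, ih]
    constructor
    · rintro ⟨g, hg, rfl⟩
      refine ⟨by simp, ?_⟩
      intro i
      refine Fin.cases ?_ (fun j => ?_) i
      · simp only [Fin.castSucc_zero, Fin.cons_zero, Fin.cons_succ]
        rw [abs_le]
        rcases hg with (⟨h, _⟩ | ⟨h, _⟩) | ⟨h, _⟩ <;> omega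
      · rw [← Fin.succ_castSucc, Fin.cons_succ, Fin.cons_succ]
        rcases hg with (⟨_, h⟩ | ⟨_, h⟩) | ⟨_, h⟩ <;> exact h j
    · rintro ⟨h0, h⟩
      refine ⟨Fin.tail f, ?_, by rw [← h0]; exact Fin.cons_self_tail f⟩
      have hPL : PL n (Fin.tail f) := by
        intro i
        have := h i.succ
        rw [← Fin.succ_castSucc] at this
        exact this
      have h1 := h 0
      have h2 : (Fin.tail f) 0 = f (Fin.succ 0) := rfl
      rw [Fin.castSucc_zero, h0, ← h2, abs_le] at h1
      have h3 : Fin.tail f 0 = y - 1 ∨ Fin.tail f 0 = y ∨ Fin.tail f 0 = y + 1 := by omega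
      rcases h3 with h3 | h3 | h3
      · left; left; exact ⟨h3, hPL⟩
      · left; right; exact ⟨h3, hPL⟩
      · right; exact ⟨h3, hPL⟩

lemma Lp_disj (n : ℕ) {y z : ℤ} (h : y ≠ z) : Disjoint (Lp n y) (Lp n z) := by
  rw [Finset.disjoint_left]
  intro f hf hf'
  rw [mem_Lp] at hf hf'
  exact h (hf.1.symm.trans hf'.1)

lemma card_Lp (n : ℕ) : ∀ y : ℤ, (Lp n y).card = 3 ^ n := by
  induction n with
  | zero => intro y; simp [Lp]
  | succ n ih =>
    intro y
    simp only [Lp]
    rw [Finset.card_image_of_injective _ (Fin.cons_right_injective (α := fun _ => ℤ) y),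
      Finset.card_union_of_disjoint, Finset.card_union_of_disjoint (Lp_disj n (by omega)),
      ih, ih, ih]
    · ring
    · rw [Finset.disjoint_union_left]
      exact ⟨Lp_disj n (by omega), Lp_disj n (by omega)⟩

lemma card_Lp_pos (n : ℕ) : ∀ y : ℤ,
    (((Lp n y).filter (fun f => ∀ v, 1 ≤ f v)).card : ℝ) = 3 ^ n * p n y := by
  induction n with
  | zero =>
    intro y
    simp only [Lp, p]
    by_cases hy : 1 ≤ y
    · rw [Finset.filter_singleton, if_pos (fun _ => hy), if_pos hy]
      simp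
    · rw [Finset.filter_singleton, if_neg (fun h => hy (h 0)), if_neg hy]
      simp
  | succ n ih =>
    intro y
    by_cases hy : 1 ≤ y
    · have hset : (Lp (n+1) y).filter (fun f => ∀ v, 1 ≤ f v)
          = ((Lp n (y-1)).filter (fun f => ∀ v, 1 ≤ f v) ∪
             (Lp n y).filter (fun f => ∀ v, 1 ≤ f v) ∪
             (Lp n (y+1)).filter (fun f => ∀ v, 1 ≤ f v)).image (fun g => Fin.cons y g) := by
        simp only [Lp]
        rw [Finset.filter_image, ← Finset.filter_union, ← Finset.filter_union]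
        congr 1
        apply Finset.filter_congr
        intro g _
        rw [Fin.forall_fin_succ]
        simp [hy]
      rw [hset, Finset.card_image_of_injective _ (Fin.cons_right_injective (α := fun _ => ℤ) y),
        Finset.card_union_of_disjoint, Finset.card_union_of_disjoint]
      · push_cast
        rw [ih, ih, ih, p_succ n y hy]
        ring
      · exact Finset.disjoint_filter_filter (Lp_disj n (by omega))
      · rw [Finset.disjoint_union_left]
        exact ⟨Finset.disjoint_filter_filter (Lp_disj n (by omega)),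
          Finset.disjoint_filter_filter (Lp_disj n (by omega))⟩
    · rw [p_nonpos _ _ (by omega), mul_zero, Nat.cast_eq_zero, Finset.card_eq_zero,
        Finset.filter_eq_empty_iff]
      intro f hf h
      rw [mem_Lp] at hf
      have := h 0
      omega

lemma low_sum_path (n M : ℕ) :
    ∑ f ∈ X (SimpleGraph.pathGraph (n+1)) 0, (low M f : ℝ)
      = (X (SimpleGraph.pathGraph (n+1)) 0).card * E n M := by
  classical
  have hG := SimpleGraph.pathGraph_connected n
  have hX : X (SimpleGraph.pathGraph (n+1)) 0 = Lp n 0 := by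
    ext f
    rw [mem_X hG, mem_Lp, PL_iff]
    tauto
  rw [hX]
  unfold low E
  simp_rw [Finset.card_filter, Nat.cast_sum]
  rw [Finset.sum_comm, Finset.mul_sum]
  apply Finset.sum_congr rfl
  intro i _
  trans ∑ f ∈ Lp n 0, (1 - (if ∀ v, 1 ≤ f v + ((i:ℤ)+1) then 1 else 0 : ℝ))
  · apply Finset.sum_congr rfl
    intro f _
    by_cases h : ∃ v, f v + ((i:ℤ)+1) ≤ 0
    · rw [if_pos h, if_neg]
      · simp
      · intro h'
        obtain ⟨v, hv⟩ := h
        have := h' v
        omega
    · rw [if_neg h, if_pos]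
      · simp
      · intro v
        push Not at h
        have := h v
        omega
  rw [Finset.sum_sub_distrib]
  have h2 : ∑ f ∈ Lp n 0, (if ∀ v, 1 ≤ f v + ((i:ℤ)+1) then 1 else 0 : ℝ)
      = (((Lp n ((i:ℤ)+1)).filter (fun f => ∀ v, 1 ≤ f v)).card : ℝ) := by
    rw [← Finset.sum_filter, Finset.sum_const, nsmul_eq_mul, mul_one, Nat.cast_inj]
    apply Finset.card_bij (fun f _ => fun v => f v + ((i:ℤ)+1))
    · intro f hf
      rw [Finset.mem_filter, mem_Lp] at *
      refine ⟨⟨by simp [hf.1.1], ?_⟩, hf.2⟩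
      have := hf.1.2
      intro j
      have := this j
      simpa using this
    · intro f _ g _ h
      funext v
      have h4 : f v + ((i:ℤ)+1) = g v + ((i:ℤ)+1) := congrFun h v
      linarith
    · intro f hf
      rw [Finset.mem_filter, mem_Lp] at hf
      refine ⟨fun v => f v - ((i:ℤ)+1), ?_, ?_⟩
      · rw [Finset.mem_filter, mem_Lp]
        refine ⟨⟨by simp [hf.1.1], ?_⟩, ?_⟩
        · intro j
          have := hf.1.2 j
          simpa using this
        · intro v
          have := hf.2 v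
          simpa using this
      · funext v
        simp
  rw [h2, card_Lp_pos, Finset.sum_const, card_Lp]
  simp
  ring

end path


end Pool.Agent.H74.LNR
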