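import Pool.Agent.H74.LNR.Ind

/-!
The strict inequality for a cycle.
-/

set_option autoImplicit false

namespace Pool.Agent.H74.LNR

open Finset
open scoped FinsetFamily

variable {V : Type*} [Fintype V] [DecidableEq V]

lemma cycle_card {G : SimpleGraph V} (hG : G.Connected) (n : ℕ) (e : V ≃ Fin (n + 1))
    (he : ∀ x y, G.Adj x y ↔
      ((e x).val + 1 = (e y).val ∨ (e y).val + 1 = (e x).val) ∨
      ((e x).val = 0 ∧ (e y).val = n) ∨ ((e x).val = n ∧ (e y).val = 0))
    (t : ℤ) (ht : |t| ≤ 1) :
    ((X G (e.symm 0)).filter (fun f => f (e.symm (Fin.last n)) = t)).card = q n (-t) := by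
  rw [show -t = 0 - t by ring, ← card_Lp_last n 0 t]
  apply Finset.card_bij (fun f _ => fun i => f (e.symm i))
  · intro f hf
    rw [Finset.mem_filter, mem_X hG] at hf
    rw [Finset.mem_filter, mem_Lp]
    refine ⟨⟨hf.1.2, ?_⟩, hf.2⟩
    intro i
    apply hf.1.1
    rw [he]
    left
    left
    simp
  · intro f _ g _ h
    funext v
    have := congrFun h (e v)
    simpa using this
  · intro f hf
    rw [Finset.mem_filter, mem_Lp] at hf
    refine ⟨fun v => f (e v), ?_, ?_⟩
    · rw [Finset.mem_filter, mem_X hG]
      refine ⟨⟨?_, by simpa using hf.1.1⟩, by simpa using hf.2⟩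
      have hp : Lip (SimpleGraph.pathGraph (n+1)) f := (PL_iff n f).mpr hf.1.2
      intro x y hxy
      rw [he] at hxy
      rcases hxy with h | ⟨h1, h2⟩ | ⟨h1, h2⟩
      · apply hp
        rw [SimpleGraph.pathGraph_adj]
        exact h
      · have e1 : e x = 0 := Fin.ext h1
        have e2 : e y = Fin.last n := Fin.ext h2
        show |f (e x) - f (e y)| ≤ 1
        rw [e1, e2, hf.1.1, hf.2, abs_sub_comm, sub_zero]
        exact ht
      · have e1 : e x = Fin.last n := Fin.ext h1
        have e2 : e y = 0 := Fin.ext h2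
        show |f (e x) - f (e y)| ≤ 1
        rw [e1, e2, hf.1.1, hf.2, sub_zero]
        exact ht
    · funext i
      show f (e (e.symm i)) = f i
      rw [Equiv.apply_symm_apply]

/-- for a cycle the inequality is strict. -/
lemma low_sum_lt_cycle {G : SimpleGraph V} (hG : G.Connected) (n M : ℕ) (hn2 : 2 ≤ n)
    (e : V ≃ Fin (n + 1))
    (he : ∀ x y, G.Adj x y ↔
      ((e x).val + 1 = (e y).val ∨ (e y).val + 1 = (e x).val) ∨
      ((e x).val = 0 ∧ (e y).val = n) ∨ ((e x).val = n ∧ (e y).val = 0))
    (hM : 3 * n + 3 + D G ≤ M) :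
    ∑ f ∈ X G (e.symm 0), (low M f : ℝ) < (X G (e.symm 0)).card * E n M := by
  classical
  set u : V := e.symm 0 with hu
  set c : V := e.symm (Fin.last n) with hc
  have eu : (e u).val = 0 := by simp [hu]
  have ec : (e c).val = n := by simp [hc]
  have huc : G.Adj u c := by
    rw [he]
    right
    left
    exact ⟨eu, ec⟩
  have hcard : ((X G u).filter (fun f => f c = 1)).card < ((X G u).filter (fun f => f c = 0)).card := by
    rw [hu, hc, cycle_card hG n e he 1 (by norm_num), cycle_card hG n e he 0 (by norm_num), q_neg,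
      neg_zero]
    exact q_zero n hn2
  have hcardV : Fintype.card V = n + 1 := by
    rw [Fintype.card_congr e, Fintype.card_fin]
  apply low_sum_lt_of hG u n M _ hM
  refine lt_of_le_of_lt ?_ (step_lt0 hG huc hcard M (M + D G) (by omega) le_rfl)
  set par : V → V := fun v => e.symm ⟨(e v).val - 1, by have := (e v).isLt; omega⟩ with hpar
  have hparv : ∀ v, (e (par v)).val = (e v).val - 1 := by
    intro v
    simp [hpar]
  have hpos : ∀ v, v ≠ u → 1 ≤ (e v).val := by
    intro v hv
    by_contra h
    apply hv
    apply e.injective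
    apply Fin.ext
    omega
  refine main_ind hG u par (fun v => (e v).val) ?_ n M (M + D G) (by omega) le_rfl
    (n - 1) (univ.erase c) ?_ ?_ ?_ _ ?_
  · intro v hv
    have h1 := hpos v hv
    have h2 := hparv v
    refine ⟨?_, by omega⟩
    rw [he]
    left
    left
    omega
  · rw [Finset.card_erase_of_mem (mem_univ c), Finset.card_univ, hcardV]
    omega
  · rw [Finset.mem_erase]
    exact ⟨huc.ne, mem_univ u⟩
  · intro v _ hv
    rw [Finset.mem_erase]
    refine ⟨?_, mem_univ _⟩
    intro h
    have h1 := hpos v hv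
    have h2 := hparv v
    rw [h, ec] at h2
    have := (e v).isLt
    omega
  · have huR : u ∈ (univ : Finset V).erase c := Finset.mem_erase.mpr ⟨huc.ne, mem_univ u⟩
    rw [← Finset.add_sum_erase (univ.erase c) _ huR, Function.update_self]
    have : ∑ x ∈ (univ.erase c).erase u, (Function.update (fun _ => (0:ℕ)) u 1 x + 1)
        = ((univ.erase c).erase u).card := by
      rw [Finset.card_eq_sum_ones]
      apply Finset.sum_congr rfl
      intro x hx
      rw [Function.update_of_ne (Finset.ne_of_mem_erase hx)]
    rw [this, Finset.card_erase_of_mem huR, Finset.card_erase_of_mem (mem_univ c), Finset.card_univ,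
      hcardV]
    omega

end Pool.Agent.H74.LNR
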