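import Mathlib

set_option autoImplicit false

namespace Pool.Agent.H74.LNR

/-- The 1-Lipschitz mappings on `G` which vanish at the vertex `r`. -/
def Maps {V : Type} (G : SimpleGraph V) (r : V) : Set (V → ℤ) :=
  {f | f r = 0 ∧ ∀ u v, G.Adj u v → |f u - f v| ≤ 1}

/-- The average, over these mappings, of the number of values taken. -/
noncomputable def avg {V : Type} (G : SimpleGraph V) (r : V) : ℝ :=
  (∑ᶠ f ∈ Maps G r, ((Set.range f).ncard : ℝ)) / ((Maps G r).ncard : ℝ)

end Pool.Agent.H74.LNR
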