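import Mathlib

/-!
Connected graphs in which no vertex has three neighbours: paths and cycles.
-/

set_option autoImplicit false

namespace Pool.Agent.H74.LNR

variable {V : Type*} [Fintype V] [DecidableEq V]

omit [Fintype V] [DecidableEq V] in
lemma exists_parent {T : SimpleGraph V} (hT : T.Connected) (r v : V) (hv : v ≠ r) :
    ∃ v', T.Adj v' v ∧ T.dist r v' + 1 = T.dist r v := by
  obtain ⟨w, hw⟩ := hT.exists_walk_length_eq_dist v r
  cases w with
  | nil => exact absurd rfl hv
  | cons h t =>
    rename_i v'
    refine ⟨v', h.symm, ?_⟩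
    rw [SimpleGraph.Walk.length_cons] at hw
    have h1 := SimpleGraph.dist_le t
    have h2 : T.dist v r ≤ T.dist v v' + T.dist v' r := hT.dist_triangle
    have h3 : T.dist v v' = 1 := SimpleGraph.dist_eq_one_iff_adj.mpr h
    rw [SimpleGraph.dist_comm (u := r) (v := v'), SimpleGraph.dist_comm (u := r) (v := v)]
    omega

/-- a connected graph without a vertex with three neighbours is a path from `r` if `r` has at most
one neighbour. -/
lemma path_of_leaf {T : SimpleGraph V} (hT : T.Connected) (n : ℕ) (hn : Fintype.card V = n + 1)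
    (h3 : ∀ z a b c, T.Adj z a → T.Adj z b → T.Adj z c → a = b ∨ a = c ∨ b = c) (r : V)
    (hr : ∀ a b, T.Adj r a → T.Adj r b → a = b) :
    ∃ e : V ≃ Fin (n + 1), ∀ x y, T.Adj x y ↔
      (e x).val + 1 = (e y).val ∨ (e y).val + 1 = (e x).val := by
  classical
  have hinj : ∀ d x y, T.dist r x = d → T.dist r y = d → x = y := by
    intro d
    induction d with
    | zero =>
      intro x y hx hy
      rw [hT.dist_eq_zero_iff] at hx hy
      rw [← hx, ← hy]
    | succ d ih =>
      intro x y hx hy
      have hxr : x ≠ r := by
        rintro rfl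
        simp at hx
      have hyr : y ≠ r := by
        rintro rfl
        simp at hy
      obtain ⟨x', hx1, hx2⟩ := exists_parent hT r x hxr
      obtain ⟨y', hy1, hy2⟩ := exists_parent hT r y hyr
      have he : x' = y' := ih x' y' (by omega) (by omega)
      subst he
      by_cases hxr' : x' = r
      · subst hxr'
        exact hr x y hx1 hy1
      · obtain ⟨z, hz1, hz2⟩ := exists_parent hT r x' hxr'
        rcases h3 x' x y z hx1 hy1 hz1.symm with h | h | h
        · exact h
        · exfalso
          rw [h] at hx
          omega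
        · exfalso
          rw [h] at hy
          omega
  have hlt : ∀ v, T.dist r v < n + 1 := by
    intro v
    obtain ⟨w, hw, hl⟩ := (hT.preconnected r v).exists_path_of_dist
    rw [← hn, ← hl]
    exact hw.length_lt
  have hbij : Function.Bijective (fun v => (⟨T.dist r v, hlt v⟩ : Fin (n + 1))) := by
    rw [Fintype.bijective_iff_injective_and_card]
    refine ⟨?_, by simp [hn]⟩
    intro x y hxy
    have : T.dist r x = T.dist r y := by simpa using hxy
    exact hinj _ x y rfl this.symm
  refine ⟨Equiv.ofBijective _ hbij, ?_⟩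
  intro x y
  show T.Adj x y ↔ T.dist r x + 1 = T.dist r y ∨ T.dist r y + 1 = T.dist r x
  constructor
  · intro h
    have h1 : T.dist r y ≤ T.dist r x + T.dist x y := hT.dist_triangle
    have h2 : T.dist r x ≤ T.dist r y + T.dist y x := hT.dist_triangle
    have h3 : T.dist x y = 1 := SimpleGraph.dist_eq_one_iff_adj.mpr h
    have h4 : T.dist y x = 1 := SimpleGraph.dist_eq_one_iff_adj.mpr h.symm
    have h5 : T.dist r x ≠ T.dist r y := fun h' => h.ne (hinj _ x y rfl h'.symm)
    omega
  · rintro (h | h)
    · have hyr : y ≠ r := by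
        rintro rfl
        simp at h
      obtain ⟨z, hz1, hz2⟩ := exists_parent hT r y hyr
      have : x = z := hinj _ x z rfl (by omega)
      rw [this]
      exact hz1
    · have hxr : x ≠ r := by
        rintro rfl
        simp at h
      obtain ⟨z, hz1, hz2⟩ := exists_parent hT r x hxr
      have : y = z := hinj _ y z rfl (by omega)
      rw [this]
      exact hz1.symm

/-- paths and cycles. -/
lemma classify {G : SimpleGraph V} (hG : G.Connected) (n : ℕ) (hn : Fintype.card V = n + 1)
    (h3 : ∀ z a b c, G.Adj z a → G.Adj z b → G.Adj z c → a = b ∨ a = c ∨ b = c) :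
    (∃ e : V ≃ Fin (n + 1), ∀ x y, G.Adj x y ↔
      (e x).val + 1 = (e y).val ∨ (e y).val + 1 = (e x).val) ∨
    (2 ≤ n ∧ ∃ e : V ≃ Fin (n + 1), ∀ x y, G.Adj x y ↔
      ((e x).val + 1 = (e y).val ∨ (e y).val + 1 = (e x).val) ∨
      ((e x).val = 0 ∧ (e y).val = n) ∨ ((e x).val = n ∧ (e y).val = 0)) := by
  classical
  rcases subsingleton_or_nontrivial V with hV | hV
  · left
    obtain ⟨r⟩ := hG.nonempty
    exact path_of_leaf hG n hn h3 r (fun a b _ _ => Subsingleton.elim _ _)
  obtain ⟨T, hTG, hT⟩ := hG.exists_isTree_le
  obtain ⟨r, hr⟩ := hT.exists_vert_degree_one_of_nontrivial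
  rw [SimpleGraph.degree_eq_one_iff_existsUnique_adj] at hr
  obtain ⟨r', _, hr'⟩ := hr
  obtain ⟨e, he⟩ := path_of_leaf hT.connected n hn
    (fun z a b c ha hb hc => h3 z a b c (hTG ha) (hTG hb) (hTG hc)) r
    (fun a b ha hb => (hr' a ha).trans (hr' b hb).symm)
  have hval : ∀ x y : V, (e x).val = (e y).val → x = y := fun x y h =>
    e.injective (Fin.ext h)
  have hclaim : ∀ x y, G.Adj x y → ¬ T.Adj x y → (e x).val < (e y).val →
      (e x).val = 0 ∧ (e y).val = n := by
    intro x y hxy hT' hlt
    rw [he] at hT'
    have hx := (e x).isLt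
    have hy := (e y).isLt
    have nb : ∀ (m : ℕ) (hm : m < n + 1), (e (e.symm ⟨m, hm⟩)).val = m := by
      intro m hm
      simp
    constructor
    · by_contra h0
      have a1 := nb ((e x).val - 1) (by omega)
      have a2 := nb ((e x).val + 1) (by omega)
      set z1 := e.symm ⟨(e x).val - 1, by omega⟩ with hz1
      set z2 := e.symm ⟨(e x).val + 1, by omega⟩ with hz2
      have g1 : G.Adj x z1 := hTG ((he x z1).mpr (by omega))
      have g2 : G.Adj x z2 := hTG ((he x z2).mpr (by omega))
      rcases h3 x z1 z2 y g1 g2 hxy with h | h | h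
      · rw [h] at a1; omega
      · rw [h] at a1; omega
      · rw [h] at a2; omega
    · by_contra h0
      have a1 := nb ((e y).val - 1) (by omega)
      have a2 := nb ((e y).val + 1) (by omega)
      set z1 := e.symm ⟨(e y).val - 1, by omega⟩ with hz1
      set z2 := e.symm ⟨(e y).val + 1, by omega⟩ with hz2
      have g1 : G.Adj y z1 := hTG ((he y z1).mpr (by omega))
      have g2 : G.Adj y z2 := hTG ((he y z2).mpr (by omega))
      rcases h3 y z1 z2 x g1 g2 hxy.symm with h | h | h
      · rw [h] at a1; omega
      · rw [h] at a1; omega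
      · rw [h] at a2; omega
  by_cases hex : ∃ x y, G.Adj x y ∧ ¬ T.Adj x y ∧ (e x).val < (e y).val
  · right
    obtain ⟨x, y, hxy, hT', hlt⟩ := hex
    obtain ⟨hx0, hyn⟩ := hclaim x y hxy hT' hlt
    rw [he] at hT'
    refine ⟨by omega, e, ?_⟩
    intro a b
    constructor
    · intro hab
      by_cases hab' : T.Adj a b
      · left
        exact (he a b).mp hab'
      · right
        rcases lt_trichotomy (e a).val (e b).val with h | h | h
        · left
          exact hclaim a b hab hab' h
        · exact absurd (hval a b h) hab.ne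
        · right
          have := hclaim b a hab.symm (fun h' => hab' h'.symm) h
          exact ⟨this.2, this.1⟩
    · rintro (h | ⟨h1, h2⟩ | ⟨h1, h2⟩)
      · exact hTG ((he a b).mpr h)
      · have e1 : a = x := hval a x (by omega)
        have e2 : b = y := hval b y (by omega)
        rw [e1, e2]
        exact hxy
      · have e1 : a = y := hval a y (by omega)
        have e2 : b = x := hval b x (by omega)
        rw [e1, e2]
        exact hxy.symm
  · left
    refine ⟨e, ?_⟩
    intro a b
    rw [← he]
    constructor
    · intro hab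
      by_contra hab'
      rcases lt_trichotomy (e a).val (e b).val with h | h | h
      · exact hex ⟨a, b, hab, hab', h⟩
      · exact hab.ne (hval a b h)
      · exact hex ⟨b, a, hab.symm, fun h' => hab' h'.symm, h⟩
    · intro h
      exact hTG h

end Pool.Agent.H74.LNR
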