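import Pool.Agent.H74.LNR.Defs
import Pool.Agent.H74.LNR.Cycle
import Pool.Agent.H74.LNR.Path

/-!
The average range: comparison with the path and the case of equality.
-/

set_option autoImplicit false

namespace Pool.Agent.H74.LNR

open Finset

lemma Maps_eq {V : Type} [Fintype V] [DecidableEq V] {G : SimpleGraph V} (hG : G.Connected)
    (r : V) : Maps G r = (X G r : Set (V → ℤ)) := by
  ext f
  rw [Finset.mem_coe, mem_X hG]
  constructor
  · rintro ⟨h1, h2⟩
    exact ⟨h2, h1⟩
  · rintro ⟨h1, h2⟩
    exact ⟨h2, h1⟩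

lemma avg_eq {V : Type} [Fintype V] [DecidableEq V] {G : SimpleGraph V} (hG : G.Connected)
    (r : V) : avg G r = (∑ f ∈ X G r, ((Set.range f).ncard : ℝ)) / ((X G r).card : ℝ) := by
  unfold avg
  rw [Maps_eq hG r, Set.ncard_coe_finset]
  congr 1
  exact finsum_mem_coe_finset _ _

/-- the average as `1` plus twice the average depth. -/
lemma avg_low {V : Type} [Fintype V] [DecidableEq V] {G : SimpleGraph V} (hG : G.Connected)
    (r : V) (M : ℕ) (hM : D G ≤ M) :
    avg G r = 1 + 2 * ((∑ f ∈ X G r, (low M f : ℝ)) / ((X G r).card : ℝ)) := by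
  have h1 : (0:ℝ) < (X G r).card := by exact_mod_cast X_card_pos hG r
  rw [avg_eq hG, range_sum hG r M hM, add_div, div_self h1.ne', mul_div_assoc]

/-- the average is an invariant of the isomorphism type, whatever the base vertices. -/
lemma avg_iso {V V' : Type} [Fintype V] [DecidableEq V] [Fintype V'] [DecidableEq V']
    {G : SimpleGraph V} {G' : SimpleGraph V'} (hG : G.Connected) (hG' : G'.Connected)
    (φ : G ≃g G') (r : V) (r' : V') : avg G r = avg G' r' := by
  classical
  have key : ∀ f ∈ X G r, (fun v' => f (φ.symm v') - f (φ.symm r')) ∈ X G' r' := by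
    intro f hf
    rw [mem_X hG] at hf
    rw [mem_X hG']
    refine ⟨?_, by simp⟩
    intro u v huv
    have h := hf.1 (φ.symm u) (φ.symm v) ((φ.symm.map_adj_iff).mpr huv)
    simpa using h
  have hinj : ∀ f ∈ X G r, ∀ g ∈ X G r,
      (fun v' => f (φ.symm v') - f (φ.symm r')) = (fun v' => g (φ.symm v') - g (φ.symm r')) →
      f = g := by
    intro f hf g hg h
    rw [mem_X hG] at hf hg
    have hc : f (φ.symm r') = g (φ.symm r') := by
      have h0 := congrFun h (φ r)
      simp only [RelIso.symm_apply_apply, hf.2, hg.2] at h0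
      linarith
    funext v
    have h0 := congrFun h (φ v)
    simp only [RelIso.symm_apply_apply] at h0
    linarith
  have hsurj : ∀ g ∈ X G' r', ∃ f, ∃ _ : f ∈ X G r,
      (fun v' => f (φ.symm v') - f (φ.symm r')) = g := by
    intro g hg
    rw [mem_X hG'] at hg
    refine ⟨fun v => g (φ v) - g (φ r), ?_, ?_⟩
    · rw [mem_X hG]
      refine ⟨?_, by simp⟩
      intro u v huv
      have h := hg.1 (φ u) (φ v) ((φ.map_adj_iff).mpr huv)
      simpa using h
    · funext v'
      simp [hg.2]
  have hcard : (X G r).card = (X G' r').card :=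
    Finset.card_bij (fun f _ => fun v' => f (φ.symm v') - f (φ.symm r')) key
      (fun f hf g hg h => hinj f hf g hg h) hsurj
  have hsum : ∑ f ∈ X G r, ((Set.range f).ncard : ℝ) = ∑ f ∈ X G' r', ((Set.range f).ncard : ℝ) := by
    apply Finset.sum_bij (fun f _ => fun v' => f (φ.symm v') - f (φ.symm r')) key
      (fun f hf g hg h => hinj f hf g hg h) hsurj
    intro f _
    congr 1
    have hr : Set.range (fun v' => f (φ.symm v') - f (φ.symm r'))
        = (fun y => y - f (φ.symm r')) '' Set.range f := by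
      ext y
      constructor
      · rintro ⟨v', rfl⟩
        exact ⟨f (φ.symm v'), ⟨_, rfl⟩, rfl⟩
      · rintro ⟨_, ⟨v, rfl⟩, rfl⟩
        exact ⟨φ v, by simp⟩
    rw [hr, Set.ncard_image_of_injective]
    intro a b hab
    simpa using hab
  rw [avg_eq hG, avg_eq hG', hcard, hsum]

lemma avg_base {V : Type} [Fintype V] [DecidableEq V] {G : SimpleGraph V} (hG : G.Connected)
    (r r' : V) : avg G r = avg G r' :=
  avg_iso hG hG (SimpleGraph.Iso.refl) r r'

/-- the value for the path. -/
lemma avg_path (n M : ℕ) (hM : D (SimpleGraph.pathGraph (n+1)) ≤ M) (s : Fin (n+1)) :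
    avg (SimpleGraph.pathGraph (n+1)) s = 1 + 2 * E n M := by
  have hP := SimpleGraph.pathGraph_connected n
  rw [avg_base hP s 0, avg_low hP 0 M hM, low_sum_path n M]
  have h2 : (0:ℝ) < (X (SimpleGraph.pathGraph (n+1)) 0).card := by
    exact_mod_cast X_card_pos hP 0
  rw [mul_div_cancel_left₀ _ h2.ne']

lemma avg_le {V : Type} [Fintype V] [DecidableEq V] {G : SimpleGraph V} (hG : G.Connected) (n : ℕ)
    (hn : Fintype.card V = n + 1) (r : V) (s : Fin (n+1)) :
    avg G r ≤ avg (SimpleGraph.pathGraph (n+1)) s := by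
  set M := 3 * n + 3 + D G + D (SimpleGraph.pathGraph (n+1)) with hM
  rw [avg_low hG r M (by omega), avg_path n M (by omega) s]
  have h1 : (0:ℝ) < (X G r).card := by exact_mod_cast X_card_pos hG r
  have h3 := low_sum_le hG r n M hn (by omega)
  have h4 : (∑ f ∈ X G r, (low M f : ℝ)) / ((X G r).card : ℝ) ≤ E n M := by
    rw [div_le_iff₀ h1]
    linarith
  linarith

lemma avg_lt {V : Type} [Fintype V] [DecidableEq V] {G : SimpleGraph V} (hG : G.Connected) (n : ℕ)
    (hn : Fintype.card V = n + 1) (r : V) (s : Fin (n+1))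
    (hno : IsEmpty (G ≃g SimpleGraph.pathGraph (n+1))) :
    avg G r < avg (SimpleGraph.pathGraph (n+1)) s := by
  set M := 3 * n + 3 + D G + D (SimpleGraph.pathGraph (n+1)) with hM
  have main : ∀ r' : V, ∑ f ∈ X G r', (low M f : ℝ) < (X G r').card * E n M →
      avg G r < avg (SimpleGraph.pathGraph (n+1)) s := by
    intro r' h3
    rw [avg_base hG r r', avg_low hG r' M (by omega), avg_path n M (by omega) s]
    have h1 : (0:ℝ) < (X G r').card := by exact_mod_cast X_card_pos hG r'
    have h4 : (∑ f ∈ X G r', (low M f : ℝ)) / ((X G r').card : ℝ) < E n M := by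
      rw [div_lt_iff₀ h1]
      linarith
    linarith
  by_cases h3 : ∀ z a b c, G.Adj z a → G.Adj z b → G.Adj z c → a = b ∨ a = c ∨ b = c
  · rcases classify hG n hn h3 with ⟨e, he⟩ | ⟨hn2, e, he⟩
    · exfalso
      apply hno.false
      exact ⟨e, fun {x y} => by rw [SimpleGraph.pathGraph_adj, he]⟩
    · exact main _ (low_sum_lt_cycle hG n M hn2 e he (by omega))
  · push Not at h3
    obtain ⟨z, a, b, c, ha, hb, hc, hab, hac, hbc⟩ := h3
    exact main z (low_sum_lt_deg hG z a b c n M ha hb hc hab hac hbc hn (by omega))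

theorem final (V : Type) [Fintype V] (G : SimpleGraph V) (hG : G.Connected) (r : V) :
    (Maps G r).Finite ∧ (Maps G r).Nonempty ∧ (∀ r' : V, avg G r' = avg G r) ∧
    ∀ s : Fin (Fintype.card V),
      avg G r ≤ avg (SimpleGraph.pathGraph (Fintype.card V)) s ∧
      (avg G r = avg (SimpleGraph.pathGraph (Fintype.card V)) s ↔
        Nonempty (G ≃g SimpleGraph.pathGraph (Fintype.card V))) := by
  classical
  refine ⟨?_, ?_, fun r' => avg_base hG r' r, ?_⟩
  · rw [Maps_eq hG r]
    exact Finset.finite_toSet _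
  · rw [Maps_eq hG r]
    exact Finset.card_pos.mp (X_card_pos hG r)
  · obtain ⟨n, hn⟩ : ∃ n, Fintype.card V = n + 1 := by
      have : 0 < Fintype.card V := Fintype.card_pos_iff.mpr ⟨r⟩
      exact ⟨Fintype.card V - 1, by omega⟩
    have gen : ∀ m, m = n + 1 → ∀ s : Fin m,
        avg G r ≤ avg (SimpleGraph.pathGraph m) s ∧
        (avg G r = avg (SimpleGraph.pathGraph m) s ↔ Nonempty (G ≃g SimpleGraph.pathGraph m)) := by
      rintro m rfl s
      refine ⟨avg_le hG n hn r s, ?_, ?_⟩
      · intro h
        by_contra hno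
        rw [not_nonempty_iff] at hno
        exact (avg_lt hG n hn r s hno).ne h
      · rintro ⟨φ⟩
        exact avg_iso hG (SimpleGraph.pathGraph_connected n) φ r s
    exact gen _ hn

end Pool.Agent.H74.LNR
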