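import Pool.Agent.H74.LNR.Strict

/-!
Strict forms of the induction: a root with three neighbours, and a cycle.
-/

set_option autoImplicit false

namespace Pool.Agent.H74.LNR

open Finset
open scoped FinsetFamily

section graph

variable {V : Type*} [Fintype V] [DecidableEq V]

/-- strict form of the induction: three branches at the root. -/
lemma main_ind_lt {G : SimpleGraph V} (hG : G.Connected) (r : V) (par : V → V) (rank : V → ℕ)
    (hpar : ∀ v, v ≠ r → G.Adj (par v) v ∧ rank (par v) < rank v) (N M B : ℕ)
    (hM : 3 * N + 3 ≤ M) (hB : M + D G ≤ B) :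
    ∀ (k : ℕ) (C : Finset V), C.card = k + 1 → r ∈ C → (∀ v ∈ C, v ≠ r → par v ∈ C) →
      ∀ ℓ : V → ℕ, ∑ j ∈ C, (ℓ j + 1) = N + 1 →
        3 ≤ ((C.erase r).filter (fun v => par v = r)).card + (if 1 ≤ ℓ r then 1 else 0) →
        ∑ g ∈ Om G B, p N (g r) < ∑ g ∈ Om G B, W C ℓ g := by
  intro k
  induction k with
  | zero =>
    intro C hC hr _ ℓ hℓ h3
    exfalso
    obtain ⟨a, ha⟩ := Finset.card_eq_one.mp hC
    rw [ha, Finset.mem_singleton] at hr
    subst hr
    rw [ha] at h3
    have : (({r} : Finset V).erase r) = ∅ := by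
      ext x
      simp
    rw [this, Finset.filter_empty, Finset.card_empty] at h3
    split_ifs at h3 <;> omega
  | succ k ih =>
    intro C hC hr hcl ℓ hℓ h3
    have hne : (C.erase r).Nonempty := by
      rw [← Finset.card_pos, Finset.card_erase_of_mem hr]
      omega
    obtain ⟨c, hc, hmax⟩ := Finset.exists_max_image (C.erase r) rank hne
    rw [Finset.mem_erase] at hc
    obtain ⟨hcr, hcC⟩ := hc
    have hadj := (hpar c hcr).1
    have hrk := (hpar c hcr).2
    have huC : par c ∈ C := hcl c hcC hcr
    have hNb : ∀ j ∈ C, ℓ j ≤ N := by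
      intro j hj
      have := Finset.single_le_sum (f := fun j => ℓ j + 1) (fun _ _ => Nat.zero_le _) hj
      omega
    have q1 : (C.erase c).card = k + 1 := by
      rw [Finset.card_erase_of_mem hcC, hC]
      omega
    have q2 : r ∈ C.erase c := Finset.mem_erase.mpr ⟨hcr.symm, hr⟩
    have q3 : ∀ v ∈ C.erase c, v ≠ r → par v ∈ C.erase c := by
      intro v hv hvr
      rw [Finset.mem_erase] at hv ⊢
      refine ⟨?_, hcl v hv.2 hvr⟩
      intro heq
      have h1 := (hpar v hvr).2
      have h2 := hmax v (Finset.mem_erase.mpr ⟨hvr, hv.2⟩)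
      rw [heq] at h1
      omega
    have q4 : ∑ j ∈ C.erase c, (Function.update ℓ (par c) (ℓ (par c) + (ℓ c + 1)) j + 1) = N + 1 := by
      have huR : par c ∈ C.erase c := Finset.mem_erase.mpr ⟨hadj.ne, huC⟩
      rw [← Finset.add_sum_erase (C.erase c) _ huR]
      rw [← Finset.add_sum_erase C _ hcC, ← Finset.add_sum_erase (C.erase c) _ huR] at hℓ
      have : ∑ x ∈ (C.erase c).erase (par c),
          (Function.update ℓ (par c) (ℓ (par c) + (ℓ c + 1)) x + 1)
          = ∑ x ∈ (C.erase c).erase (par c), (ℓ x + 1) := by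
        apply Finset.sum_congr rfl
        intro j hj
        rw [Function.update_of_ne (Finset.ne_of_mem_erase hj)]
      rw [this, Function.update_self]
      omega
    by_cases hA : par c = r ∧ 1 ≤ ℓ r
    · -- the step is strict
      obtain ⟨hcu, hlr⟩ := hA
      rw [if_pos hlr] at h3
      have hcF : c ∈ (C.erase r).filter (fun v => par v = r) := by
        rw [Finset.mem_filter, Finset.mem_erase]
        exact ⟨⟨hcr, hcC⟩, hcu⟩
      have hex : ∃ j ∈ (C.erase r).filter (fun v => par v = r), j ≠ c := by
        by_contra hcon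
        push Not at hcon
        have hsub : (C.erase r).filter (fun v => par v = r) ⊆ {c} := by
          intro j hj
          rw [Finset.mem_singleton]
          exact hcon j hj
        have := Finset.card_le_card hsub
        rw [Finset.card_singleton] at this
        omega
      obtain ⟨j, hj, hjc⟩ := hex
      rw [Finset.mem_filter, Finset.mem_erase] at hj
      have hst := step_lt hG hadj C hcC huC ℓ N M B hNb hM hB (by rw [hcu]; exact hlr) j hj.1.2
        (by rw [hcu]; exact hj.1.1) hjc
      refine lt_of_le_of_lt ?_ hst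
      exact main_ind hG r par rank hpar N M B hM hB k _ q1 q2 q3 _ q4
    · refine lt_of_lt_of_le ?_ (step hG hadj C hcC huC ℓ N M B hNb hM hB)
      apply ih _ q1 q2 q3 _ q4
      by_cases hcu : par c = r
      · have hl0 : ¬ 1 ≤ ℓ r := fun h => hA ⟨hcu, h⟩
        rw [if_neg hl0] at h3
        rw [hcu, Function.update_self, if_pos (by omega)]
        have hset : ((C.erase c).erase r).filter (fun v => par v = r)
            = ((C.erase r).filter (fun v => par v = r)).erase c := by
          ext x
          simp only [Finset.mem_filter, Finset.mem_erase]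
          tauto
        rw [hset, Finset.card_erase_of_mem]
        · omega
        · rw [Finset.mem_filter, Finset.mem_erase]
          exact ⟨⟨hcr, hcC⟩, hcu⟩
      · rw [Function.update_of_ne (fun h => hcu h.symm)]
        have hset : ((C.erase c).erase r).filter (fun v => par v = r)
            = (C.erase r).filter (fun v => par v = r) := by
          ext x
          simp only [Finset.mem_filter, Finset.mem_erase]
          constructor
          · rintro ⟨⟨h1, h2, h3⟩, h4⟩
            exact ⟨⟨h1, h3⟩, h4⟩
          · rintro ⟨⟨h1, h3⟩, h4⟩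
            refine ⟨⟨h1, ?_, h3⟩, h4⟩
            rintro rfl
            exact hcu h4
        rw [hset]
        exact h3

lemma low_sum_lt_of {G : SimpleGraph V} (hG : G.Connected) (r : V) (n M : ℕ)
    (h1 : ∑ g ∈ Om G (M + D G), p n (g r) < ∑ g ∈ Om G (M + D G), W Finset.univ (fun _ => 0) g)
    (hM : 3 * n + 3 + D G ≤ M) :
    ∑ f ∈ X G r, (low M f : ℝ) < (X G r).card * E n M := by
  classical
  rw [← sub_pos, ← Finset.sum_sub_distrib] at h1
  rw [fiber hG r M (M + D G) le_rfl
    (fun g => W Finset.univ (fun _ => 0) g - p n (g r))] at h1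
  swap
  · intro g hg hne
    by_contra hcon
    apply hne
    by_cases h2 : g r ≤ 0
    · rw [W_zero, if_pos ⟨r, h2⟩, p_nonpos _ _ h2, sub_self]
    · have h3 : (M:ℤ) < g r := by omega
      have h4 : ¬ ∃ v, g v ≤ 0 := by
        rintro ⟨v, hv⟩
        have := hg.le_D hG r v
        rw [abs_le] at this
        omega
      rw [W_zero, if_neg h4, p_eq_one n _ (by omega), sub_self]
  rw [Finset.sum_comm] at h1
  have h5 : ∀ f ∈ X G r, ∑ i ∈ range M,
      (W Finset.univ (fun _ => 0) (fun v => f v + ((i:ℤ)+1)) - p n (f r + ((i:ℤ)+1)))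
      = E n M - low M f := by
    intro f hf
    rw [mem_X hG] at hf
    unfold E low
    rw [Finset.card_filter, Nat.cast_sum, ← Finset.sum_sub_distrib]
    apply Finset.sum_congr rfl
    intro i _
    rw [W_zero, hf.2, zero_add]
    split_ifs <;> simp
  rw [Finset.sum_congr rfl h5, Finset.sum_sub_distrib, Finset.sum_const, nsmul_eq_mul] at h1
  linarith

/-- a vertex with three neighbours makes the inequality strict. -/
lemma low_sum_lt_deg {G : SimpleGraph V} (hG : G.Connected) (r a b c : V) (n M : ℕ)
    (ha : G.Adj r a) (hb : G.Adj r b) (hc : G.Adj r c) (hab : a ≠ b) (hac : a ≠ c) (hbc : b ≠ c)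
    (hn : Fintype.card V = n + 1) (hM : 3 * n + 3 + D G ≤ M) :
    ∑ f ∈ X G r, (low M f : ℝ) < (X G r).card * E n M := by
  classical
  obtain ⟨par, hpar⟩ := exists_par hG r
  apply low_sum_lt_of hG r n M _ hM
  have hp : ∀ x, G.Adj r x → par x = r := by
    intro x hx
    have h1 := hpar x hx.ne'
    have h2 : G.dist x r ≤ 1 := by
      have := SimpleGraph.dist_le (SimpleGraph.Walk.cons hx.symm SimpleGraph.Walk.nil)
      simpa using this
    have h3 : G.dist (par x) r = 0 := by omega
    exact (hG.dist_eq_zero_iff).mp h3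
  refine main_ind_lt hG r par (fun v => G.dist v r) hpar n M (M + D G) (by omega) le_rfl
    n Finset.univ (by rw [Finset.card_univ, hn]) (Finset.mem_univ r)
    (fun _ _ _ => Finset.mem_univ _) (fun _ => 0)
    (by simp [hn]) ?_
  rw [if_neg (by omega), add_zero]
  have hsub : ({a, b, c} : Finset V) ⊆ (univ.erase r).filter (fun v => par v = r) := by
    intro x hx
    rw [Finset.mem_filter, Finset.mem_erase]
    simp only [Finset.mem_insert, Finset.mem_singleton] at hx
    rcases hx with rfl | rfl | rfl
    · exact ⟨⟨ha.ne', mem_univ _⟩, hp _ ha⟩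
    · exact ⟨⟨hb.ne', mem_univ _⟩, hp _ hb⟩
    · exact ⟨⟨hc.ne', mem_univ _⟩, hp _ hc⟩
  have hcard : ({a, b, c} : Finset V).card = 3 := by
    rw [Finset.card_eq_three]
    exact ⟨a, b, c, hab, hac, hbc, rfl⟩
  rw [← hcard]
  exact Finset.card_le_card hsub

end graph

/-- number of walks with `n` steps in `{-1,0,1}` from `0` to `z`. -/
def q : ℕ → ℤ → ℕ
  | 0, z => if z = 0 then 1 else 0
  | (n+1), z => q n (z-1) + q n z + q n (z+1)

lemma q_neg (n : ℕ) : ∀ z : ℤ, q n (-z) = q n z := by
  induction n with
  | zero => intro z; simp [q]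
  | succ n ih =>
    intro z
    simp only [q]
    rw [show -z - 1 = -(z+1) by ring, show -z + 1 = -(z-1) by ring, ih, ih, ih]
    ring

lemma q_anti (n : ℕ) : ∀ z : ℤ, 0 ≤ z → q n (z+1) ≤ q n z := by
  induction n with
  | zero =>
    intro z hz
    simp only [q]
    rw [if_neg (by omega)]
    exact Nat.zero_le _
  | succ n ih =>
    intro z hz
    simp only [q]
    rw [show z + 1 - 1 = z by ring]
    have h2 := ih (z+1) (by omega)
    rcases eq_or_lt_of_le hz with h | h
    · subst h
      have e : q n (0 - 1) = q n (0 + 1) := by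
        rw [show (0:ℤ) - 1 = -(0+1) by norm_num, q_neg]
      rw [e]
      omega
    · have h0 := ih (z-1) (by omega)
      rw [show z - 1 + 1 = z by ring] at h0
      have h1 := ih z hz
      omega

lemma q_one (n : ℕ) (hn : 1 ≤ n) : q n 2 < q n 1 := by
  induction n with
  | zero => omega
  | succ n ih =>
    rcases Nat.eq_zero_or_pos n with h | h
    · subst h
      simp [q]
    · have h0 := q_anti n 0 le_rfl
      have h2 := q_anti n 2 (by norm_num)
      have h1 := ih h
      simp only [q]
      rw [show (2:ℤ) - 1 = 1 by norm_num, show (1:ℤ) - 1 = 0 by norm_num,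
        show (1:ℤ) + 1 = 2 by norm_num]
      rw [show (0:ℤ) + 1 = 1 by norm_num] at h0
      omega

lemma q_zero (n : ℕ) (hn : 2 ≤ n) : q n 1 < q n 0 := by
  obtain ⟨m, rfl⟩ : ∃ m, n = m + 1 := ⟨n - 1, by omega⟩
  have h := q_one m (by omega)
  simp only [q]
  have e : q m (0 - 1) = q m 1 := by
    rw [show (0:ℤ) - 1 = -1 by norm_num, q_neg]
  rw [e, show (1:ℤ) - 1 = 0 by norm_num, show (1:ℤ) + 1 = 2 by norm_num,
    show (0:ℤ) + 1 = 1 by norm_num]
  omega

lemma card_Lp_last (n : ℕ) : ∀ y t : ℤ,
    ((Lp n y).filter (fun f => f (Fin.last n) = t)).card = q n (y - t) := by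
  induction n with
  | zero =>
    intro y t
    simp only [Lp, q]
    rw [Finset.filter_singleton]
    by_cases h : y = t
    · simp [h]
    · have h' : y - t ≠ 0 := sub_ne_zero.mpr h
      simp [h, h']
  | succ n ih =>
    intro y t
    have hset : (Lp (n+1) y).filter (fun f => f (Fin.last (n+1)) = t)
        = ((Lp n (y-1)).filter (fun f => f (Fin.last n) = t) ∪
           (Lp n y).filter (fun f => f (Fin.last n) = t) ∪
           (Lp n (y+1)).filter (fun f => f (Fin.last n) = t)).image (fun g => Fin.cons y g) := by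
      simp only [Lp]
      rw [Finset.filter_image, ← Finset.filter_union, ← Finset.filter_union]
      congr 1
    rw [hset, Finset.card_image_of_injective _ (Fin.cons_right_injective (α := fun _ => ℤ) y),
      Finset.card_union_of_disjoint, Finset.card_union_of_disjoint]
    · rw [ih, ih, ih]
      simp only [q]
      rw [show y - 1 - t = y - t - 1 by ring, show y + 1 - t = y - t + 1 by ring]
    · exact Finset.disjoint_filter_filter (Lp_disj n (by omega))
    · rw [Finset.disjoint_union_left]
      exact ⟨Finset.disjoint_filter_filter (Lp_disj n (by omega)),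
        Finset.disjoint_filter_filter (Lp_disj n (by omega))⟩

end Pool.Agent.H74.LNR
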