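import Pool.Agent.H74.LNR.Base

/-!
Strict forms: two paths merged at a vertex where something else hangs, and a vertex detached from a
second neighbour.
-/

set_option autoImplicit false

namespace Pool.Agent.H74.LNR

open Finset
open scoped FinsetFamily

lemma p_pos (a : ℕ) : ∀ y : ℤ, 1 ≤ y → 0 < p a y := by
  induction a with
  | zero => intro y hy; simp [p, hy]
  | succ a ih =>
    intro y hy
    rw [p_succ a y hy]
    have h1 := ih y hy
    have h2 := p_nonneg a (y-1)
    have h3 := p_nonneg a (y+1)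
    linarith

lemma p_lt (b : ℕ) (hb : 1 ≤ b) : p b 1 < p b 2 := by
  obtain ⟨c, rfl⟩ : ∃ c, b = c + 1 := ⟨b - 1, by omega⟩
  rw [p_succ c 1 le_rfl, p_succ c 2 (by norm_num)]
  have h0 : p c 0 = 0 := p_nonpos c _ le_rfl
  have h1 := p_pos c 3 (by norm_num)
  rw [show (1:ℤ) - 1 = 0 by norm_num, show (2:ℤ) - 1 = 1 by norm_num,
    show (1:ℤ) + 1 = 2 by norm_num, show (2:ℤ) + 1 = 3 by norm_num, h0]
  linarith

lemma k_self_pos (a : ℕ) : ∀ y : ℤ, 1 ≤ y → 0 < k a y y := by
  induction a with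
  | zero => intro y hy; simp [k, hy]
  | succ a ih =>
    intro y hy
    rw [k_succ, if_pos hy]
    have h1 := ih y hy
    have h2 := k_nonneg a (y-1) y
    have h3 := k_nonneg a (y+1) y
    linarith

lemma k_pos (a : ℕ) (ha : 1 ≤ a) : 0 < k a 1 2 := by
  obtain ⟨c, rfl⟩ : ∃ c, a = c + 1 := ⟨a - 1, by omega⟩
  rw [k_succ, if_pos le_rfl]
  have h1 := k_self_pos c 2 (by norm_num)
  have h2 := k_nonneg c 0 2
  have h3 := k_nonneg c 1 2
  rw [show (1:ℤ) - 1 = 0 by norm_num, show (1:ℤ) + 1 = 2 by norm_num]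
  linarith

lemma merge_lt (α : ℤ → ℝ) (hα : Monotone α) (h12 : α 1 < α 2) (a b M : ℕ) (ha : 1 ≤ a)
    (hb : 1 ≤ b) (hM : 2 * a + b ≤ M) :
    0 < ∑ i ∈ range M, α ((i:ℤ)+1) * (p a ((i:ℤ)+1) * p b ((i:ℤ)+1) - p (a+b) ((i:ℤ)+1)) := by
  have key : ∑ i ∈ range M, α ((i:ℤ)+1) * (p a ((i:ℤ)+1) * p b ((i:ℤ)+1) - p (a+b) ((i:ℤ)+1))
      = ∑ i ∈ range M, ∑ j ∈ range M,
        k a ((i:ℤ)+1) ((j:ℤ)+1) * (α ((i:ℤ)+1) * (p b ((i:ℤ)+1) - p b ((j:ℤ)+1))) := by
    apply Finset.sum_congr rfl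
    intro i hi
    by_cases h : ((i:ℤ)+1) + a ≤ M
    · rw [← sum_k b M a _ h, ← sum_k_one M a _ h, Finset.sum_mul, ← Finset.sum_sub_distrib,
        Finset.mul_sum]
      apply Finset.sum_congr rfl
      intro j _
      ring
    · rw [p_eq_one a _ (by omega), p_eq_one b _ (by omega), p_eq_one (a+b) _ (by push_cast; omega)]
      rw [one_mul, sub_self, mul_zero, eq_comm]
      apply Finset.sum_eq_zero
      intro j _
      by_cases h2 : (a:ℤ) < |((i:ℤ)+1) - ((j:ℤ)+1)|
      · rw [k_far a _ _ h2, zero_mul]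
      · rw [not_lt, abs_le] at h2
        rw [p_eq_one b ((j:ℤ)+1) (by omega), sub_self, mul_zero, mul_zero]
  rw [key]
  have swap : ∑ i ∈ range M, ∑ j ∈ range M,
        k a ((i:ℤ)+1) ((j:ℤ)+1) * (α ((i:ℤ)+1) * (p b ((i:ℤ)+1) - p b ((j:ℤ)+1)))
      = ∑ i ∈ range M, ∑ j ∈ range M,
        k a ((i:ℤ)+1) ((j:ℤ)+1) * (α ((j:ℤ)+1) * (p b ((j:ℤ)+1) - p b ((i:ℤ)+1))) := by
    rw [Finset.sum_comm]
    apply Finset.sum_congr rfl
    intro i _
    apply Finset.sum_congr rfl
    intro j _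
    rw [k_symm a ((i:ℤ)+1) ((j:ℤ)+1)]
  have dbl : 0 < 2 * ∑ i ∈ range M, ∑ j ∈ range M,
        k a ((i:ℤ)+1) ((j:ℤ)+1) * (α ((i:ℤ)+1) * (p b ((i:ℤ)+1) - p b ((j:ℤ)+1))) := by
    rw [two_mul]
    nth_rewrite 2 [swap]
    rw [← Finset.sum_add_distrib]
    have hterm : ∀ i j : ℕ, k a ((i:ℤ)+1) ((j:ℤ)+1) * (α ((i:ℤ)+1) * (p b ((i:ℤ)+1) - p b ((j:ℤ)+1))) +
        k a ((i:ℤ)+1) ((j:ℤ)+1) * (α ((j:ℤ)+1) * (p b ((j:ℤ)+1) - p b ((i:ℤ)+1)))
        = k a ((i:ℤ)+1) ((j:ℤ)+1) * ((α ((i:ℤ)+1) - α ((j:ℤ)+1)) * (p b ((i:ℤ)+1) - p b ((j:ℤ)+1))) := by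
      intro i j
      ring
    have hnn : ∀ i j : ℕ, 0 ≤ k a ((i:ℤ)+1) ((j:ℤ)+1) *
        ((α ((i:ℤ)+1) - α ((j:ℤ)+1)) * (p b ((i:ℤ)+1) - p b ((j:ℤ)+1))) := by
      intro i j
      apply mul_nonneg (k_nonneg _ _ _)
      rcases le_total ((i:ℤ)+1) ((j:ℤ)+1) with h | h
      · exact mul_nonneg_of_nonpos_of_nonpos (sub_nonpos.mpr (hα h)) (sub_nonpos.mpr (p_mono b h))
      · exact mul_nonneg (sub_nonneg.mpr (hα h)) (sub_nonneg.mpr (p_mono b h))
    apply Finset.sum_pos'
    · intro i _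
      rw [← Finset.sum_add_distrib]
      apply Finset.sum_nonneg
      intro j _
      rw [hterm]
      exact hnn i j
    · refine ⟨0, Finset.mem_range.mpr (by omega), ?_⟩
      rw [← Finset.sum_add_distrib]
      apply Finset.sum_pos'
      · intro j _
        rw [hterm]
        exact hnn 0 j
      · refine ⟨1, Finset.mem_range.mpr (by omega), ?_⟩
        rw [hterm]
        have e1 : ((0:ℕ):ℤ) + 1 = 1 := by norm_num
        have e2 : ((1:ℕ):ℤ) + 1 = 2 := by norm_num
        rw [e1, e2]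
        apply mul_pos (k_pos a ha)
        exact mul_pos_of_neg_of_neg (sub_neg.mpr h12) (sub_neg.mpr (p_lt b hb))
  linarith

section graph

variable {V : Type*} [Fintype V] [DecidableEq V]

lemma merge_graph_lt {G : SimpleGraph V} (hG : G.Connected) (u : V)
    (w : (V → ℤ) → ℝ) (hw : Monotone w)
    (h12 : ∃ f ∈ X G u, w (fun v => f v + 1) < w (fun v => f v + 2)) (a b M B : ℕ)
    (ha : 1 ≤ a) (hb : 1 ≤ b) (hM : 2 * a + b ≤ M) (hB : M + D G ≤ B) :
    0 < ∑ g ∈ Om G B, w g * (p a (g u) * p b (g u) - p (a+b) (g u)) := by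
  rw [fiber hG u M B hB (fun g => w g * (p a (g u) * p b (g u) - p (a+b) (g u)))]
  · have hα : Monotone (fun y : ℤ => ∑ f ∈ X G u, w (fun v => f v + y)) := by
      intro y z hyz
      simp only
      apply Finset.sum_le_sum
      intro f _
      apply hw
      intro v
      show f v + y ≤ f v + z
      linarith
    have h12' : (fun y : ℤ => ∑ f ∈ X G u, w (fun v => f v + y)) 1
        < (fun y : ℤ => ∑ f ∈ X G u, w (fun v => f v + y)) 2 := by
      apply Finset.sum_lt_sum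
      · intro f _
        apply hw
        intro v
        show f v + 1 ≤ f v + 2
        linarith
      · exact h12
    have := merge_lt _ hα h12' a b M ha hb hM
    refine this.trans_eq ?_
    apply Finset.sum_congr rfl
    intro i _
    rw [Finset.sum_mul]
    apply Finset.sum_congr rfl
    intro f hf
    rw [mem_X hG] at hf
    simp only [hf.2, zero_add]
  · intro g _ hne
    by_contra hcon
    apply hne
    by_cases h1 : g u ≤ 0
    · rw [p_nonpos a _ h1, p_nonpos (a+b) _ h1]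
      ring
    · rw [p_eq_one a _ (by omega), p_eq_one b _ (by omega), p_eq_one (a+b) _ (by push_cast; omega)]
      ring

/-- some map vanishing at `u` distinguishes the levels `1` and `2`. -/
lemma W_gap {G : SimpleGraph V} (hG : G.Connected) (u : V) (C : Finset V) (ℓ : V → ℕ)
    (j : V) (hj : j ∈ C) (hju : j ≠ u) :
    ∃ f ∈ X G u, W C ℓ (fun v => f v + 1) < W C ℓ (fun v => f v + 2) := by
  refine ⟨fun v => if v = j then -1 else 0, ?_, ?_⟩
  · rw [mem_X hG]
    refine ⟨?_, by simp [hju.symm]⟩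
    intro a b _
    simp only
    split_ifs <;> norm_num
  · have h0 : W C ℓ (fun v => (if v = j then (-1:ℤ) else 0) + 1) = 0 :=
      Finset.prod_eq_zero hj (p_nonpos _ _ (by simp))
    rw [h0]
    apply Finset.prod_pos
    intro v _
    apply p_pos
    show (1:ℤ) ≤ (if v = j then -1 else 0) + 2
    split_ifs <;> norm_num

lemma step_lt {G : SimpleGraph V} (hG : G.Connected) {u c : V} (huc : G.Adj u c)
    (C : Finset V) (hc : c ∈ C) (hu : u ∈ C) (ℓ : V → ℕ) (N M B : ℕ) (hN : ∀ j ∈ C, ℓ j ≤ N)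
    (hM : 3 * N + 3 ≤ M) (hB : M + D G ≤ B) (hl : 1 ≤ ℓ u)
    (j : V) (hj : j ∈ C) (hju : j ≠ u) (hjc : j ≠ c) :
    ∑ g ∈ Om G B, W (C.erase c) (Function.update ℓ u (ℓ u + (ℓ c + 1))) g
      < ∑ g ∈ Om G B, W C ℓ g := by
  have huc' : u ≠ c := huc.ne
  have huR : u ∈ C.erase c := Finset.mem_erase.mpr ⟨huc', hu⟩
  have hNc := hN c hc
  have hNu := hN u hu
  -- first inequality
  have s1 : ∑ g ∈ Om G B, W (C.erase c) ℓ g * p (ℓ c + 1) (g u) ≤ ∑ g ∈ Om G B, W C ℓ g := by
    have h := detach hG huc (W (C.erase c) ℓ) (W_mono _ _) (W_nonneg _ _)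
      (fun g hg => Finset.prod_eq_zero huR (p_nonpos _ _ hg)) (p (ℓ c)) (p_mono _) (ℓ c + 1) M B
      (fun y hy => by
        rw [p_eq_one (ℓ c) y (by push_cast at hy; omega), p_eq_one (ℓ c) _ (by push_cast; omega)])
      (by omega) hB
    rw [← sub_nonneg, ← Finset.sum_sub_distrib]
    refine h.trans_eq ?_
    apply Finset.sum_congr rfl
    intro g _
    have e : W C ℓ g = W (C.erase c) ℓ g * p (ℓ c) (g c) := by
      unfold W
      rw [mul_comm, Finset.mul_prod_erase C (fun j => p (ℓ j) (g j)) hc]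
    rw [e]
    by_cases hg : 1 ≤ g u
    · rw [p_succ (ℓ c) (g u) hg]
      ring
    · have : W (C.erase c) ℓ g = 0 := Finset.prod_eq_zero huR (p_nonpos _ _ (by omega))
      rw [this]
      ring
  refine lt_of_lt_of_le ?_ s1
  -- second inequality
  have hj' : j ∈ (C.erase c).erase u := Finset.mem_erase.mpr ⟨hju, Finset.mem_erase.mpr ⟨hjc, hj⟩⟩
  have h := merge_graph_lt hG u (W ((C.erase c).erase u) ℓ) (W_mono _ _)
    (W_gap hG u _ ℓ j hj' hju) (ℓ u) (ℓ c + 1) M B hl (by omega)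
    (by omega) hB
  rw [← sub_pos, ← Finset.sum_sub_distrib]
  refine h.trans_eq ?_
  apply Finset.sum_congr rfl
  intro g _
  have e1 : W (C.erase c) ℓ g = W ((C.erase c).erase u) ℓ g * p (ℓ u) (g u) := by
    unfold W
    rw [mul_comm, Finset.mul_prod_erase (C.erase c) (fun j => p (ℓ j) (g j)) huR]
  have e2 : W (C.erase c) (Function.update ℓ u (ℓ u + (ℓ c + 1))) g
      = W ((C.erase c).erase u) ℓ g * p (ℓ u + (ℓ c + 1)) (g u) := by
    unfold W
    rw [← Finset.mul_prod_erase (C.erase c)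
      (fun j => p (Function.update ℓ u (ℓ u + (ℓ c + 1)) j) (g j)) huR, mul_comm]
    simp only [Function.update_self]
    congr 1
    apply Finset.prod_congr rfl
    intro j hj
    rw [Function.update_of_ne (Finset.ne_of_mem_erase hj)]
  rw [e1, e2]
  ring

/-- strict form of the first step, when `c` is tied to the rest by more than the edge `u c`. -/
lemma step_lt0 {G : SimpleGraph V} (hG : G.Connected) {u c : V} (huc : G.Adj u c)
    (hcard : ((X G u).filter (fun f => f c = 1)).card < ((X G u).filter (fun f => f c = 0)).card)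
    (M B : ℕ) (hM : 3 ≤ M) (hB : M + D G ≤ B) :
    ∑ g ∈ Om G B, W (univ.erase c) (Function.update (fun _ => 0) u 1) g
      < ∑ g ∈ Om G B, W univ (fun _ => 0) g := by
  have huc' : u ≠ c := huc.ne
  have huR : u ∈ (univ : Finset V).erase c := Finset.mem_erase.mpr ⟨huc', mem_univ u⟩
  have h := detach_key hG huc (W (univ.erase c) (fun _ => 0)) (W_mono _ _) (W_nonneg _ _)
      (fun g hg => Finset.prod_eq_zero huR (p_nonpos _ _ hg)) (p 0) (p_mono _) 1 M B
      (fun y hy => by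
        rw [p_eq_one 0 y (by push_cast at hy ⊢; omega), p_eq_one 0 _ (by norm_num)])
      (by omega) hB
  have hpos : 0 < ((((X G u).filter (fun f => f c = 0)).card : ℝ) - ((X G u).filter (fun f => f c = 1)).card) /
        (3 * ((X G u).filter (fun f => f c = 0)).card) *
      ∑ i ∈ range M, (∑ f ∈ (X G u).filter (fun f => f c = 0),
          (W (univ.erase c) (fun _ => 0)) (fun v => f v + ((i + 1 : ℕ) : ℤ))) *
        (((p 0) ((i + 1 : ℕ) : ℤ) - (p 0) (((i + 1 : ℕ) : ℤ) - 1)) -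
          ((p 0) ((i + 2 : ℕ) : ℤ) - (p 0) (((i + 2 : ℕ) : ℤ) - 1))) := by
    have h1 : (((X G u).filter (fun f => f c = 1)).card : ℝ) <
        ((X G u).filter (fun f => f c = 0)).card := by exact_mod_cast hcard
    have h0 : (0:ℝ) ≤ (((X G u).filter (fun f => f c = 1)).card : ℝ) := Nat.cast_nonneg _
    apply mul_pos
    · apply div_pos
      · linarith
      · linarith
    · have hsplit : ∀ i ∈ range M, 0 ≤ (∑ f ∈ (X G u).filter (fun f => f c = 0),
          (W (univ.erase c) (fun _ => 0)) (fun v => f v + ((i + 1 : ℕ) : ℤ))) *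
        (((p 0) ((i + 1 : ℕ) : ℤ) - (p 0) (((i + 1 : ℕ) : ℤ) - 1)) -
          ((p 0) ((i + 2 : ℕ) : ℤ) - (p 0) (((i + 2 : ℕ) : ℤ) - 1))) := by
        intro i _
        apply mul_nonneg
        · exact Finset.sum_nonneg (fun f _ => W_nonneg _ _ _)
        · have q1 : p 0 (((i + 1 : ℕ) : ℤ)) = 1 := p_eq_one 0 _ (by push_cast; omega)
          have q2 : p 0 (((i + 2 : ℕ) : ℤ)) = 1 := p_eq_one 0 _ (by push_cast; omega)
          have q3 : p 0 (((i + 2 : ℕ) : ℤ) - 1) = 1 := p_eq_one 0 _ (by push_cast; omega)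
          have q4 : p 0 (((i + 1 : ℕ) : ℤ) - 1) ≤ p 0 (((i + 1 : ℕ) : ℤ)) := p_mono 0 (by omega)
          rw [q2, q3]
          linarith
      apply Finset.sum_pos' hsplit
      refine ⟨0, Finset.mem_range.mpr (by omega), ?_⟩
      apply mul_pos
      · apply Finset.sum_pos'
        · intro f _
          exact W_nonneg _ _ _
        · refine ⟨fun _ => 0, ?_, ?_⟩
          · rw [Finset.mem_filter, mem_X hG]
            exact ⟨⟨fun a b _ => by simp, rfl⟩, rfl⟩
          · apply Finset.prod_pos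
            intro v _
            apply p_pos
            norm_num
      · simp only [p]
        norm_num
  have h2 := lt_of_lt_of_le hpos h
  rw [← sub_pos, ← Finset.sum_sub_distrib]
  refine h2.trans_eq ?_
  apply Finset.sum_congr rfl
  intro g _
  have e : W univ (fun _ => 0) g = W (univ.erase c) (fun _ => 0) g * p 0 (g c) := by
    unfold W
    rw [mul_comm, Finset.mul_prod_erase univ (fun j => p 0 (g j)) (mem_univ c)]
  have e1 : W (univ.erase c) (fun _ => 0) g
      = W ((univ.erase c).erase u) (fun _ => 0) g * p 0 (g u) := by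
    unfold W
    rw [mul_comm, Finset.mul_prod_erase (univ.erase c) (fun j => p 0 (g j)) huR]
  have e2 : W (univ.erase c) (Function.update (fun _ => 0) u 1) g
      = W ((univ.erase c).erase u) (fun _ => 0) g * p 1 (g u) := by
    unfold W
    rw [← Finset.mul_prod_erase (univ.erase c)
      (fun j => p (Function.update (fun _ => (0:ℕ)) u 1 j) (g j)) huR, mul_comm]
    simp only [Function.update_self]
    congr 1
    apply Finset.prod_congr rfl
    intro j hj
    rw [Function.update_of_ne (Finset.ne_of_mem_erase hj)]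
  rw [e, e2, e1]
  by_cases hg : 1 ≤ g u
  · rw [p_succ 0 (g u) hg, p_eq_one 0 (g u) (by push_cast; omega)]
    ring
  · rw [p_nonpos 0 (g u) (by omega), p_nonpos 1 (g u) (by omega)]
    ring

end graph

end Pool.Agent.H74.LNR
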